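import Pool.Agent.Q2.SF.SpM
import Pool.Agent.Q2.SF.CaM
import Pool.Agent.Q2.SF.CayN
import Pool.Agent.Q38.PX.Dim

/-!
# Section rings from the minuscule formats of rank two

`V` is a product of cones over spinor varieties `OG(5,10)` (16 coordinates, codimension 5) and over
Cayley planes `E₆/P₁` (27 coordinates, codimension 10), in any number. Let
`R = k[x₁, …, x_N]/I`, where `I` is generated by the equations of `V`, evaluated at homogeneous
polynomials, and by further polynomials `g j`. Let a finite group `G` act diagonally and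
`S = ⨁ₘ (R_{hm})^G`. If `S` is a section ring and `∑ w i > top`, i.e. `a(R) < 0` if `R` has the
expected dimension, then `S₁ ≠ 0`; if `h = 1`, then `dim S₁ ≥ ∑ w i - top`.

Idea of the proof. Let `T` be the set of the coordinates `xᵢ` which are fixed by an element of
`G × μ_∞` whose character on `S₁` is not trivial, and let `A` be the set of the coordinates of a
factor of `V` whose weight has the value one on this element. The forms which do not belong to `A`
vanish on the span of `T`. If `x ∈ A`, then the variety `V` has a point over the field of rational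
functions in the coordinates of `A` which are not opposite to `x` (that is, the product with `x` does
not occur in the equations), with these coordinates, and whose coordinates outside `A` are zero.
By a dimension count `|T| ≤ #{i ∈ A : i opposite to x}` (plus the other factors). For the spinor
variety `A` contains an `x` which is opposite to at most half of `A`, since there are no triangles;
for the Cayley plane the triangles are the 45 lines of the generalized quadrangle, that is, the
monomials of the invariant cubic form, and if `A` contains a line, then the weight of the cubic form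
has the value one and the bound is worse by one half. All this is averaged over the group against
`1 - Re μ ^ h`.
-/

set_option autoImplicit false

namespace Pool.Agent.Results.MP_954e53_ag.MinusculeFormats

open MvPolynomial Finset Pool.Agent.TH144.NV Pool.Agent.Y374.PF Pool.Agent.Q2.SF
open scoped Matrix

variable {k : Type} [Field k] {G : Type} [Group G] {N : ℕ}

/-- Forms in the spinor format: a form `s`, a vector `v` and a skew-symmetric matrix `M` of size five
of forms which are semi-invariants. The weights (degrees and characters) of the `v i`, the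
`M i j` and of `s` are `b i`, `c - b i - b j`, `2 c - ∑ b i`; this is the condition that the
equations `s v = Pf M`, `M v = 0` have weights. -/
structure Spinor (w : Fin N → ℕ) (α : Fin N → G →* kˣ) where
  b : Fin 5 → Wt k G
  c : Wt k G
  s : MvPolynomial (Fin N) k
  v : Fin 5 → MvPolynomial (Fin N) k
  M : Matrix (Fin 5) (Fin 5) (MvPolynomial (Fin N) k)
  skew : Mᵀ = -M
  s_wt : HasWeight w α s (2 • c - ∑ i, b i)
  v_wt : ∀ i, HasWeight w α (v i) (b i)
  M_wt : ∀ i j, i ≠ j → HasWeight w α (M i j) (c - b i - b j)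

/-- Forms in the Cayley format: three matrices `A`, `B`, `C` of size three of forms which are
semi-invariants, of the weights `a i - b j`, `b i - c j`, `m + c i - a j` with
`∑ a i - ∑ b i = ∑ b i - ∑ c i = m`; this is the condition that the equations `adj A = B C`,
`adj B = C A`, `adj C = A B` have weights. -/
structure Cayley (w : Fin N → ℕ) (α : Fin N → G →* kˣ) where
  a : Fin 3 → Wt k G
  b : Fin 3 → Wt k G
  c : Fin 3 → Wt k G
  m : Wt k G
  ab : ∑ i, a i = m + ∑ i, b i
  bc : ∑ i, b i = m + ∑ i, c i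
  A : Matrix (Fin 3) (Fin 3) (MvPolynomial (Fin N) k)
  B : Matrix (Fin 3) (Fin 3) (MvPolynomial (Fin N) k)
  C : Matrix (Fin 3) (Fin 3) (MvPolynomial (Fin N) k)
  A_wt : ∀ i j, HasWeight w α (A i j) (a i - b j)
  B_wt : ∀ i j, HasWeight w α (B i j) (b i - c j)
  C_wt : ∀ i j, HasWeight w α (C i j) (m + c i - a j)

/-- Polynomials over a ring with positive weights `w i` of the variables, on which `G` acts by the
characters `α i`: `n₁` spinor formats, `n₂` Cayley formats, and `q` further semi-invariant forms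
`g j` of degree at least two. -/
structure Datum (k : Type) [Field k] (G : Type) [Group G] (N n₁ n₂ q : ℕ) where
  w : Fin N → ℕ
  w_pos : ∀ i, 0 < w i
  α : Fin N → G →* kˣ
  spin : Fin n₁ → Spinor w α
  cay : Fin n₂ → Cayley w α
  g : Fin q → MvPolynomial (Fin N) k
  e : Fin q → Wt k G
  g_wt : ∀ j, HasWeight w α (g j) (e j)
  two_le : ∀ j, 2 ≤ (e j).1

namespace Spinor

variable {w : Fin N → ℕ} {α : Fin N → G →* kˣ} (P : Spinor w α)

theorem skew' (i j : Fin 5) : P.M j i = - P.M i j := by
  have h := congrFun (congrFun P.skew i) j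
  rwa [Matrix.transpose_apply, Matrix.neg_apply] at h

theorem diag [CharZero k] (i : Fin 5) : P.M i i = 0 := by
  have h := P.skew' i i
  have h1 : (2 : MvPolynomial (Fin N) k) * P.M i i = 0 := by
    rw [two_mul]
    nth_rewrite 1 [h]
    exact neg_add_cancel _
  rcases mul_eq_zero.1 h1 with h2 | h2
  · exact absurd h2 two_ne_zero
  · exact h2

theorem hf (i : Fin 16) : HasWeight w α (spinorV P.s P.v P.M i) (spinorW P.b P.c i) := by
  have h0 : HasWeight w α P.s (P.c + P.c - (P.b 0 + P.b 1 + P.b 2 + P.b 3 + P.b 4)) := by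
    have := P.s_wt
    rwa [Fin.sum_univ_five, two_nsmul] at this
  fin_cases i
  · exact h0
  · exact P.v_wt 0
  · exact P.v_wt 1
  · exact P.v_wt 2
  · exact P.v_wt 3
  · exact P.v_wt 4
  · exact P.M_wt 0 1 (by decide)
  · exact P.M_wt 0 2 (by decide)
  · exact P.M_wt 0 3 (by decide)
  · exact P.M_wt 0 4 (by decide)
  · exact P.M_wt 1 2 (by decide)
  · exact P.M_wt 1 3 (by decide)
  · exact P.M_wt 1 4 (by decide)
  · exact P.M_wt 2 3 (by decide)
  · exact P.M_wt 2 4 (by decide)
  · exact P.M_wt 3 4 (by decide)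

/-- the factor of the product -/
noncomputable def fac : Fac w α where
  Q := spinor
  nice := spinor_nice
  wt := spinorW P.b P.c
  f := spinorV P.s P.v P.M
  hf := P.hf
  rel l t t' := (spinor_rel P.b P.c l t).trans (spinor_rel P.b P.c l t').symm
  e := 0
  ex := Fin.elim0
  ex_pos j := j.elim0
  comb := by
    intro z hz
    obtain ⟨x, hx, hc⟩ := spinor_comb' (fun i => z (spinorW P.b P.c i) = 0) hz
    exact ⟨x, hx, (hc _ _).trans (Nat.le_add_right _ _)⟩

end Spinor

namespace Cayley

variable {w : Fin N → ℕ} {α : Fin N → G →* kˣ} (P : Cayley w α)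

theorem hf (i : Fin 27) :
    HasWeight w α (cayleyV P.A P.B P.C i) (cayleyW P.a P.b P.c P.m i) := by
  fin_cases i
  · exact P.A_wt 0 0
  · exact P.A_wt 0 1
  · exact P.A_wt 0 2
  · exact P.A_wt 1 0
  · exact P.A_wt 1 1
  · exact P.A_wt 1 2
  · exact P.A_wt 2 0
  · exact P.A_wt 2 1
  · exact P.A_wt 2 2
  · exact P.B_wt 0 0
  · exact P.B_wt 0 1
  · exact P.B_wt 0 2
  · exact P.B_wt 1 0
  · exact P.B_wt 1 1
  · exact P.B_wt 1 2
  · exact P.B_wt 2 0
  · exact P.B_wt 2 1
  · exact P.B_wt 2 2
  · exact P.C_wt 0 0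
  · exact P.C_wt 0 1
  · exact P.C_wt 0 2
  · exact P.C_wt 1 0
  · exact P.C_wt 1 1
  · exact P.C_wt 1 2
  · exact P.C_wt 2 0
  · exact P.C_wt 2 1
  · exact P.C_wt 2 2

theorem m_pos : 0 < P.m.1 := by
  have h := congrArg Prod.fst P.ab
  rw [Fin.sum_univ_three, Fin.sum_univ_three] at h
  simp only [Prod.fst_add] at h
  have h0 := (P.A_wt 0 0).pos
  have h1 := (P.A_wt 1 1).pos
  have h2 := (P.A_wt 2 2).pos
  rw [Prod.fst_sub] at h0 h1 h2
  linarith

open Classical in
/-- the factor of the product -/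
noncomputable def fac : Fac w α where
  Q := cayley
  nice := cayley_nice
  wt := cayleyW P.a P.b P.c P.m
  f := cayleyV P.A P.B P.C
  hf := P.hf
  rel l t t' := add_right_cancel ((cayley_rel P.a P.b P.c P.m P.ab P.bc l t).trans
    (cayley_rel P.a P.b P.c P.m P.ab P.bc l t').symm)
  e := 1
  ex := fun _ => P.m
  ex_pos _ := P.m_pos
  comb := by
    intro z hz
    rcases cayley_comb' (fun i => z (cayleyW P.a P.b P.c P.m i) = 0) hz with
      ⟨x, hx, hc⟩ | ⟨⟨x, hx, hc⟩, l, t, h1, h2, h3⟩
    · exact ⟨x, hx, (hc _ _).trans (Nat.le_add_right _ _)⟩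
    · refine ⟨x, hx, (hc _ _).trans (Nat.add_le_add_left
        (Finset.card_pos.2 ⟨(0 : Fin 1), ?_⟩) _)⟩
      rw [Finset.mem_filter]
      have h4 := congrArg z (cayley_rel P.a P.b P.c P.m P.ab P.bc l t)
      rw [map_add, map_add, h1, h2, h3, add_zero, add_zero] at h4
      exact ⟨mem_univ _, h4.symm⟩

end Cayley

variable {n₁ n₂ q : ℕ}

namespace Datum

variable (D : Datum k G N n₁ n₂ q)

/-- the equations of the formats, and the polynomials `g j` -/
noncomputable def gens : Set (MvPolynomial (Fin N) k) :=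
  {x | ∃ a i, x = (D.spin a).s * (D.spin a).v i - pfaffians (D.spin a).M i} ∪
  {x | ∃ a i, x = ((D.spin a).M *ᵥ (D.spin a).v) i} ∪
  {x | ∃ a i j, x = ((D.cay a).A.adjugate - (D.cay a).B * (D.cay a).C) i j ∨
    x = ((D.cay a).B.adjugate - (D.cay a).C * (D.cay a).A) i j ∨
    x = ((D.cay a).C.adjugate - (D.cay a).A * (D.cay a).B) i j} ∪ Set.range D.g

/-- the ideal of the ring `R` -/
noncomputable def I : Ideal (MvPolynomial (Fin N) k) := Ideal.span D.gens

/-- the cone over `Proj R` -/
def Cone : Set (Fin N → k) := {x | ∀ a ∈ D.gens, eval x a = 0}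

/-- `a(R) + ∑ w i` if `R` has the expected dimension: the contributions of the formats are half of the
sum of the degrees of the 16 forms, and five times the degree of the invariant cubic form -/
def top : ℤ := ∑ a, (6 * (D.spin a).c.1 - 2 * ∑ i, ((D.spin a).b i).1) + ∑ a, 5 * (D.cay a).m.1
  + ∑ j, (D.e j).1

/-- the automorphism `xᵢ ↦ α i g • xᵢ` of the polynomial ring -/
noncomputable def act (g : G) : MvPolynomial (Fin N) k →ₐ[k] MvPolynomial (Fin N) k :=
  Pool.Agent.TH144.NV.act fun i => (D.α i g : k)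

/-- the class of `a` in `R` is a `G`-invariant form of degree `m` -/
def Inv (m : ℕ) (a : MvPolynomial (Fin N) k) : Prop :=
  IsWeightedHomogeneous D.w a m ∧
    ∀ g, Ideal.Quotient.mk D.I (D.act g a) = Ideal.Quotient.mk D.I a

/-- the space `(R_m)^G` of the classes of these forms -/
noncomputable def sections (m : ℕ) : Submodule k (MvPolynomial (Fin N) k ⧸ D.I) where
  carrier := {q | ∃ a, D.Inv m a ∧ Ideal.Quotient.mk D.I a = q}
  add_mem' := by
    rintro _ _ ⟨a, ha, rfl⟩ ⟨b, hb, rfl⟩
    refine ⟨a + b, ⟨ha.1.add hb.1, fun g => ?_⟩, map_add _ _ _⟩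
    rw [map_add, map_add, map_add, ha.2, hb.2]
  zero_mem' := ⟨0, ⟨isWeightedHomogeneous_zero _ _ _, fun g => by rw [map_zero]⟩, map_zero _⟩
  smul_mem' := by
    rintro c _ ⟨a, ha, rfl⟩
    refine ⟨c • a, ⟨?_, fun g => ?_⟩, ?_⟩
    · exact (mem_weightedHomogeneousSubmodule k D.w m _).1
        (Submodule.smul_mem _ c ((mem_weightedHomogeneousSubmodule k D.w m _).2 ha.1))
    · rw [map_smul]
      have h1 := ha.2 g
      rw [Ideal.Quotient.eq] at h1 ⊢
      rw [← smul_sub, smul_eq_C_mul]
      exact Ideal.mul_mem_left _ _ h1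
    · exact map_smul (Ideal.Quotient.mkₐ k D.I) c a

/-- At every point of `Proj R` invariant forms of some consecutive degrees `hm`, `h(m+1)` do not
vanish. This holds if `⨁ₘ (R_{hm})^G` is the section ring of an ample invertible sheaf. -/
def SectionRing (h : ℕ) : Prop :=
  ∀ x ∈ D.Cone, x ≠ 0 → ∃ (m : ℕ) (a b : MvPolynomial (Fin N) k),
    D.Inv (h * m) a ∧ D.Inv (h * (m + 1)) b ∧ eval x a ≠ 0 ∧ eval x b ≠ 0

theorem eval_mem {x : Fin N → k} (hx : x ∈ D.Cone) {a : MvPolynomial (Fin N) k}
    (ha : a ∈ D.I) : eval x a = 0 := by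
  have h1 : D.I ≤ RingHom.ker (eval x) := by
    rw [I, Ideal.span_le]
    intro b hb
    exact (RingHom.mem_ker).2 (hx b hb)
  exact (RingHom.mem_ker).1 (h1 ha)

theorem eval_inv {x : Fin N → k} (hx : x ∈ D.Cone) {m : ℕ} {a : MvPolynomial (Fin N) k}
    (ha : D.Inv m a) (g : G) : eval (fun i => (D.α i g : k) * x i) a = eval x a := by
  rw [← eval_act]
  have h1 := ha.2 g
  rw [Ideal.Quotient.eq] at h1
  have h2 := D.eval_mem hx h1
  rw [map_sub, sub_eq_zero] at h2
  exact h2

/-- eigenvalues of fixed lines are `h`-th roots of unity -/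
theorem pow_eq_one {h : ℕ} (hS : D.SectionRing h) {x : Fin N → k} (hx : x ∈ D.Cone)
    (hx0 : x ≠ 0) (g : G) (μ : kˣ) (hfix : ∀ i, (D.α i g : k) * x i = (μ : k) ^ D.w i * x i) :
    μ ^ h = 1 := by
  obtain ⟨m, a, b, ha, hb, ha0, hb0⟩ := hS x hx hx0
  have key : ∀ {m : ℕ} {a : MvPolynomial (Fin N) k}, D.Inv m a → eval x a ≠ 0 →
      (μ : k) ^ m = 1 := by
    intro m a ha ha0
    have h1 := D.eval_inv hx ha g
    rw [show (fun i => (D.α i g : k) * x i) = fun i => (μ : k) ^ D.w i * x i from funext hfix,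
      eval_wscale ha.1] at h1
    exact mul_right_cancel₀ ha0 (by rw [h1, one_mul])
  have h1 := key ha ha0
  have h2 := key hb hb0
  rw [mul_add, pow_add, h1, one_mul, mul_one] at h2
  ext
  simpa using h2

theorem fst_spinorW (b : Fin 5 → Wt k G) (c : Wt k G) (i : Fin 16) :
    (spinorW b c i).1 = spinorW (fun i => (b i).1) c.1 i := by
  fin_cases i <;> rfl

theorem fst_cayleyW (a b c : Fin 3 → Wt k G) (m : Wt k G) (i : Fin 27) :
    (cayleyW a b c m i).1
      = cayleyW (fun i => (a i).1) (fun i => (b i).1) (fun i => (c i).1) m.1 i := by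
  fin_cases i <;> rfl

/-- the family of the factors -/
noncomputable def Φ : Fin n₁ ⊕ Fin n₂ → Fac D.w D.α :=
  Sum.elim (fun a => (D.spin a).fac) (fun a => (D.cay a).fac)

theorem val_map {F : QF} {R S H : Type} [CommRing R] [CommRing S] [FunLike H R S]
    [RingHomClass H R S] (φ : H) (y : Fin F.n → R) (l : Fin F.L) : φ (F.val y l) = F.val (fun i => φ (y i)) l := by
  unfold QF.val
  rw [map_sum]
  refine Finset.sum_congr rfl fun t _ => ?_
  rw [map_mul, map_mul, map_intCast]

/-- every generator is an equation of a factor or one of the `g j` -/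
theorem gens_cases [CharZero k] {x : MvPolynomial (Fin N) k} (hx : x ∈ D.gens) :
    (∃ a l, x = (D.Φ a).Q.val (D.Φ a).f l) ∨ ∃ j, x = D.g j := by
  rcases hx with ((⟨a, i, rfl⟩ | ⟨a, i, rfl⟩) | ⟨a, i, j, rfl | rfl | rfl⟩) | ⟨j, rfl⟩
  · obtain ⟨l, hl⟩ := (spinor_link (D.spin a).s (D.spin a).v (D.spin a).M (D.spin a).skew'
      (D.spin a).diag).1 i
    exact Or.inl ⟨Sum.inl a, l, hl⟩
  · obtain ⟨l, hl⟩ := (spinor_link (D.spin a).s (D.spin a).v (D.spin a).M (D.spin a).skew'
      (D.spin a).diag).2 i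
    exact Or.inl ⟨Sum.inl a, l, hl⟩
  · obtain ⟨l, hl⟩ := cayley_link_A (D.cay a).A (D.cay a).B (D.cay a).C i j
    exact Or.inl ⟨Sum.inr a, l, hl⟩
  · obtain ⟨l, hl⟩ := cayley_link_B (D.cay a).A (D.cay a).B (D.cay a).C i j
    exact Or.inl ⟨Sum.inr a, l, hl⟩
  · obtain ⟨l, hl⟩ := cayley_link_C (D.cay a).A (D.cay a).B (D.cay a).C i j
    exact Or.inl ⟨Sum.inr a, l, hl⟩
  · exact Or.inr ⟨j, rfl⟩

open Classical in
/-- the weights which take no part in level `h` -/
theorem not_good_le [IsAlgClosed k] [CharZero k] [Finite G] {h : ℕ} (hS : D.SectionRing h) :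
    ∑ i ∈ univ.filter (fun i => ¬ Good h (D.w i) (D.α i)), (D.w i : ℤ) ≤ D.top := by
  have h1 := not_good Pool.Agent.Q38.PX.dim D.w_pos D.Φ D.g D.e D.g_wt h (by
    intro γ μ hμ x hfix hval hg
    by_contra hx0
    refine hμ (D.pow_eq_one hS (x := x) ?_ hx0 γ μ hfix)
    intro y hy
    rcases D.gens_cases hy with ⟨a, l, rfl⟩ | ⟨j, rfl⟩
    · rw [val_map]
      exact hval a l
    · exact hg j)
  have h2 : ∑ a, (∑ i, ((D.Φ a).wt i).1 + ∑ j, ((D.Φ a).ex j).1) + 2 * ∑ j, (D.e j).1
      = 2 * D.top := by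
    rw [Fintype.sum_sum_type]
    have e1 : ∀ a, (∑ i, ((D.Φ (Sum.inl a)).wt i).1 + ∑ j, ((D.Φ (Sum.inl a)).ex j).1)
        = 2 * (6 * (D.spin a).c.1 - 2 * ∑ i, ((D.spin a).b i).1) := by
      intro a
      have e3 : ∑ j, ((D.Φ (Sum.inl a)).ex j).1 = 0 := Finset.sum_eq_zero fun j _ => j.elim0
      have e4 := sum_spinorW (fun i => ((D.spin a).b i).1) (D.spin a).c.1
      have e5 : ∑ i, ((D.Φ (Sum.inl a)).wt i).1
          = ∑ i, spinorW (fun i => ((D.spin a).b i).1) (D.spin a).c.1 i := by
        refine Finset.sum_congr rfl fun i _ => ?_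
        exact fst_spinorW _ _ i
      rw [e3, e5, e4, Fin.sum_univ_five]
      simp only [nsmul_eq_mul]
      push_cast
      ring
    have e2 : ∀ a, (∑ i, ((D.Φ (Sum.inr a)).wt i).1 + ∑ j, ((D.Φ (Sum.inr a)).ex j).1)
        = 2 * (5 * (D.cay a).m.1) := by
      intro a
      have e3 : ∑ j, ((D.Φ (Sum.inr a)).ex j).1 = (D.cay a).m.1 := by
        show ∑ j : Fin 1, (D.cay a).m.1 = _
        simp
      have e4 := sum_cayleyW (fun i => ((D.cay a).a i).1) (fun i => ((D.cay a).b i).1)
        (fun i => ((D.cay a).c i).1) (D.cay a).m.1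
      have e5 : ∑ i, ((D.Φ (Sum.inr a)).wt i).1
          = ∑ i, cayleyW (fun i => ((D.cay a).a i).1) (fun i => ((D.cay a).b i).1)
            (fun i => ((D.cay a).c i).1) (D.cay a).m.1 i := by
        refine Finset.sum_congr rfl fun i _ => ?_
        exact fst_cayleyW _ _ _ _ i
      rw [e3, e5, e4]
      simp only [nsmul_eq_mul]
      push_cast
      ring
    rw [Finset.sum_congr rfl fun a _ => e1 a, Finset.sum_congr rfl fun a _ => e2 a,
      ← Finset.mul_sum, ← Finset.mul_sum]
    unfold top
    ring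
  rw [h2] at h1
  exact le_of_mul_le_mul_left (by convert h1) (by norm_num : (0 : ℤ) < 2)

/-- the ideal contains no forms of degree one -/
theorem eq_zero_of_mem [CharZero k] {v : MvPolynomial (Fin N) k}
    (hv : IsWeightedHomogeneous D.w v 1) (hI : v ∈ D.I) : v = 0 := by
  have hf : ∀ {p : MvPolynomial (Fin N) k} {ω : Wt k G}, HasWeight D.w D.α p ω →
      (Polynomial.X : Polynomial (MvPolynomial (Fin N) k)) ∣ φ D.w p := by
    intro p ω hp
    rw [φ_hom hp.homNat]
    refine Dvd.dvd.mul_left (dvd_pow_self _ ?_) _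
    have := hp.pos
    omega
  have h1 : ∀ x ∈ D.gens, (Polynomial.X : Polynomial (MvPolynomial (Fin N) k)) ^ 2
      ∣ φ D.w x := by
    intro x hx
    rcases D.gens_cases hx with ⟨a, l, rfl⟩ | ⟨j, rfl⟩
    · rw [val_map]
      refine Finset.dvd_sum fun t _ => ?_
      rw [mul_assoc, pow_two]
      exact Dvd.dvd.mul_left (mul_dvd_mul (hf ((D.Φ a).hf _)) (hf ((D.Φ a).hf _))) _
    · rw [φ_hom (D.g_wt j).homNat]
      refine Dvd.dvd.mul_left (pow_dvd_pow _ ?_) _
      have := D.two_le j
      omega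
  have h2 : (Polynomial.X : Polynomial (MvPolynomial (Fin N) k)) ^ 2 ∣ φ D.w v := by
    have h3 : Ideal.span D.gens ≤
        Ideal.comap (φ D.w).toRingHom (Ideal.span {Polynomial.X ^ 2}) := by
      rw [Ideal.span_le]
      intro x hx
      rw [SetLike.mem_coe, Ideal.mem_comap, Ideal.mem_span_singleton]
      exact h1 x hx
    have h4 := h3 hI
    rw [Ideal.mem_comap, Ideal.mem_span_singleton] at h4
    exact h4
  rw [φ_hom hv, pow_one, Polynomial.X_pow_dvd_iff] at h2
  have h3 := h2 1 (by norm_num)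
  simpa using h3

theorem finite_sections_one : FiniteDimensional k (D.sections 1) := by
  let π : MvPolynomial (Fin N) k →ₗ[k] (MvPolynomial (Fin N) k ⧸ D.I) :=
    (Ideal.Quotient.mkₐ k D.I).toLinearMap
  have h1 : FiniteDimensional k
      (Submodule.span k (Set.range (X : Fin N → MvPolynomial (Fin N) k))) :=
    FiniteDimensional.span_of_finite k (Set.finite_range _)
  have h3 : D.sections 1 ≤ Submodule.map π
      (Submodule.span k (Set.range (X : Fin N → MvPolynomial (Fin N) k))) := by
    rintro _ ⟨a, ha, rfl⟩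
    exact ⟨a, mem_span_X D.w_pos ha.1, rfl⟩
  exact Submodule.finiteDimensional_of_le h3

/-- variables of degree one are linearly independent in `R` -/
theorem card_le_finrank [CharZero k] (T : Finset (Fin N))
    (hInv : ∀ i ∈ T, D.Inv 1 (X i)) : T.card ≤ Module.finrank k (D.sections 1) := by
  classical
  have hfin := D.finite_sections_one
  have hmem : ∀ c : {i // i ∈ T} → k,
      Ideal.Quotient.mk D.I (∑ i, c i • (X i.1 : MvPolynomial (Fin N) k))
        ∈ D.sections 1 := by
    intro c
    rw [map_sum]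
    refine Submodule.sum_mem _ (fun i _ => ?_)
    have h1 : Ideal.Quotient.mk D.I (c i • (X i.1 : MvPolynomial (Fin N) k))
        = c i • Ideal.Quotient.mk D.I (X i.1) := map_smul (Ideal.Quotient.mkₐ k D.I) _ _
    rw [h1]
    exact Submodule.smul_mem _ _ ⟨X i.1, hInv i.1 i.2, rfl⟩
  let F : ({i // i ∈ T} → k) →ₗ[k] D.sections 1 :=
    { toFun := fun c => ⟨Ideal.Quotient.mk D.I (∑ i, c i • (X i.1 : MvPolynomial (Fin N) k)),
        hmem c⟩
      map_add' := by
        intro c d
        apply Subtype.ext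
        simp only [Pi.add_apply, add_smul, Finset.sum_add_distrib, map_add]
        rfl
      map_smul' := by
        intro r' c
        apply Subtype.ext
        simp only [Pi.smul_apply, smul_eq_mul, mul_smul, ← Finset.smul_sum, RingHom.id_apply]
        exact map_smul (Ideal.Quotient.mkₐ k D.I) _ _ }
  have hF : Function.Injective F := by
    rw [injective_iff_map_eq_zero]
    intro c hc
    have h1 : Ideal.Quotient.mk D.I (∑ i, c i • (X i.1 : MvPolynomial (Fin N) k)) = 0 :=
      congrArg Subtype.val hc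
    rw [Ideal.Quotient.eq_zero_iff_mem] at h1
    have h2 : IsWeightedHomogeneous D.w (∑ i, c i • (X i.1 : MvPolynomial (Fin N) k)) 1 := by
      rw [← mem_weightedHomogeneousSubmodule]
      refine Submodule.sum_mem _ (fun i _ => Submodule.smul_mem _ _ ?_)
      rw [mem_weightedHomogeneousSubmodule]
      exact (hInv i.1 i.2).1
    have h3 := D.eq_zero_of_mem h2 h1
    have h4 : LinearIndependent k (fun i : {i // i ∈ T} => (X i.1 : MvPolynomial (Fin N) k)) :=
      (linearIndependent_X (Fin N) k).comp _ Subtype.val_injective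
    funext i
    exact (Fintype.linearIndependent_iff.1 h4) c h3 i
  have h5 := LinearMap.finrank_le_finrank_of_injective hF
  simpa [Module.finrank_fintype_fun_eq_card, Fintype.card_coe] using h5

end Datum

open Classical in
/-- **Section rings from products of minuscule formats of rank two.** -/
theorem result [IsAlgClosed k] [CharZero k] [Finite G] (D : Datum k G N n₁ n₂ q) {h : ℕ}
    (hh : 0 < h)
    -- no variable vanishes on the cone
    (hfull : ∀ i, ∃ x ∈ D.Cone, x i ≠ 0)
    -- the ring of the `(R_{hm})^G` is a section ring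
    (hS : D.SectionRing h) :
    (∃ T : Finset (Fin N), ∑ i, (D.w i : ℤ) ≤ D.top + ∑ i ∈ T, (D.w i : ℤ) ∧
      ∀ i ∈ T, D.w i ∣ h ∧ D.Inv h (X i ^ (h / D.w i)) ∧
        ¬ IsNilpotent (Ideal.Quotient.mk D.I (X i ^ (h / D.w i)))) ∧
    (D.top < ∑ i, (D.w i : ℤ) → ∃ s ∈ D.sections h, ¬ IsNilpotent s) ∧
    (h = 1 → ∑ i, (D.w i : ℤ) - D.top ≤ Module.finrank k (D.sections 1)) := by
  have hmain := D.not_good_le hS
  set T : Finset (Fin N) := univ.filter fun i => Good h (D.w i) (D.α i) with hT
  have hsum : ∑ i, (D.w i : ℤ) ≤ D.top + ∑ i ∈ T, (D.w i : ℤ) := by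
    have h1 := Finset.sum_filter_add_sum_filter_not (univ : Finset (Fin N))
      (fun i => Good h (D.w i) (D.α i)) (fun i => (D.w i : ℤ))
    rw [← hT] at h1
    rw [← h1]
    linarith
  have hprop : ∀ i ∈ T, D.w i ∣ h ∧ D.Inv h (X i ^ (h / D.w i)) ∧
        ¬ IsNilpotent (Ideal.Quotient.mk D.I (X i ^ (h / D.w i))) := by
    intro i hi
    obtain ⟨hdvd, hα⟩ := ((Finset.mem_filter.1 hi).2).dvd (D.w_pos i)
    have hne : h / D.w i ≠ 0 := by
      intro h0
      have := Nat.div_mul_cancel hdvd
      rw [h0, zero_mul] at this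
      omega
    refine ⟨hdvd, ⟨?_, ?_⟩, ?_⟩
    · have h1 := (isWeightedHomogeneous_X k D.w i).pow (h / D.w i)
      rwa [smul_eq_mul, Nat.div_mul_cancel hdvd] at h1
    · intro g
      have h1 : D.act g (X i ^ (h / D.w i)) = X i ^ (h / D.w i) := by
        rw [map_pow]
        show (Pool.Agent.TH144.NV.act (fun i => (D.α i g : k)) (X i)) ^ _ = _
        unfold Pool.Agent.TH144.NV.act
        rw [aeval_X, mul_pow, ← C_pow, ← Units.val_pow_eq_pow_val, hα g, Units.val_one, C_1,
          one_mul]
      rw [h1]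
    · rintro ⟨m, hm⟩
      obtain ⟨x, hx, hxi⟩ := hfull i
      rw [← map_pow, Ideal.Quotient.eq_zero_iff_mem] at hm
      have := D.eval_mem hx hm
      rw [map_pow, map_pow, eval_X] at this
      exact hxi (eq_zero_of_pow_eq_zero (eq_zero_of_pow_eq_zero this))
  refine ⟨⟨T, hsum, hprop⟩, ?_, ?_⟩
  · intro hlt
    have hne : T.Nonempty := by
      rw [Finset.nonempty_iff_ne_empty]
      intro h0
      rw [h0, Finset.sum_empty] at hsum
      omega
    obtain ⟨i, hi⟩ := hne
    exact ⟨_, ⟨_, (hprop i hi).2.1, rfl⟩, (hprop i hi).2.2⟩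
  · rintro rfl
    have hw1 : ∀ i ∈ T, D.w i = 1 := fun i hi => Nat.dvd_one.1 (hprop i hi).1
    have h1 := D.card_le_finrank T (fun i hi => by
      have h2 := (hprop i hi).2.1
      rw [hw1 i hi] at h2
      simpa using h2)
    have h2 : ∑ i ∈ T, (D.w i : ℤ) = T.card := by
      rw [Finset.sum_congr rfl (fun i hi => by rw [hw1 i hi, Nat.cast_one])]
      simp
    rw [h2] at hsum
    have h3 : (T.card : ℤ) ≤ Module.finrank k (D.sections 1) := by exact_mod_cast h1
    linarith

end Pool.Agent.Results.MP_954e53_ag.MinusculeFormats
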