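import Pool.Agent.Q35.PX.Cnt2
import Pool.Agent.Q38.PX.Dim
import Pool.Agent.Q92.PX.Gen
import Pool.Agent.Q177.PX.Mat
import Pool.Agent.Y374.PF.Zero
import Pool.Agent.Y374.PF.Degree
import Pool.Agent.Y374.PF.Ineq

/-!
# Section rings from Pfaffian formats of all sizes: sections of the generating sheaf

`R = k[x₁, …, x_N]/I` with positive weights `w i`, where `I` is generated by the Pfaffians of size
`2 q + 2` of a homogeneous alternating matrix of size `n` with entries of positive degrees, a finite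
group `G` acting diagonally, and `S = ⨁ₘ (R_{hm})^G`. If `S` is a section ring and
`2 ∑ w i > (n - 1 - 2 q) deg (det M)`, i.e. `a(R) < 0`, then `S₁ ≠ 0`; if `h = 1`, then
`dim S₁ ≥ -a(R)`.

Idea of the proof. Let `V` be the linear span of the coordinates which are fixed by an element of
`G × μ_∞` whose character on `S₁` is not trivial; at the points of `V`, except the origin, the
matrix has rank greater than `2 q`. The entries which do not vanish on `V` form a graph on the `n`
indices, `a — b` if `z a z b = τ`. For a matching of `q` edges there is a generic alternating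
matrix of rank `2 q` with support in the graph, for which all the entries in the rows of the
matching are independent (the other entries are a Schur complement); so `dim V` is at most the
number of the edges which avoid the matching. This is averaged over the sets of `q` edges in a
maximal matching, and the result over the group against `1 - Re μ ^ h`.
-/

set_option autoImplicit false

namespace Pool.Agent.Results.MP_954e53_ag.PfaffianFormats

open MvPolynomial Finset Pool.Agent.TH144.NV Pool.Agent.Y374.PF Pool.Agent.Q35.PX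

/-- A homogeneous alternating matrix over a polynomial ring with positive weights and a diagonal
action of `G`, with its Pfaffians of size `2 q + 2`. `w i`: weights of the variables; the entry
`M a b`, `a ≠ b`, is homogeneous of degree `e a + e b + ε > 0`; `pf x` is the Pfaffian of the
submatrix with rows and columns `x`, i.e. the square root of its determinant; `G` acts by the
characters `α i` on the variables, and by `χ a χ b ψ` on `M a b`. -/
structure Datum (k : Type) [Field k] (G : Type) [Group G] (N n q : ℕ) where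
  w : Fin N → ℕ
  w_pos : ∀ i, 0 < w i
  e : Fin n → ℤ
  ε : ℤ
  pos : ∀ a b, a ≠ b → 0 < e a + e b + ε
  M : Matrix (Fin n) (Fin n) (MvPolynomial (Fin N) k)
  diag : ∀ a, M a a = 0
  skew : ∀ a b, M b a = - M a b
  homogeneous : ∀ a b (m : ℕ), (m : ℤ) = e a + e b + ε → IsWeightedHomogeneous w (M a b) m
  pf : (Fin (2 * q + 2) → Fin n) → MvPolynomial (Fin N) k
  pf_sq : ∀ x, pf x ^ 2 = (M.submatrix x x).det
  α : Fin N → G →* kˣ
  χ : Fin n → G →* kˣ
  ψ : G →* kˣ
  semi : ∀ g a b, act (fun i => (α i g : k)) (M a b) = C ((χ a g * χ b g * ψ g : kˣ) : k) * M a b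

variable {k : Type} [Field k] {G : Type} [Group G] {N n q : ℕ}

namespace Datum

variable (D : Datum k G N n q)

/-- the ideal of the Pfaffians of size `2 q + 2` -/
noncomputable def I : Ideal (MvPolynomial (Fin N) k) := Ideal.span (Set.range D.pf)

/-- the cone over `Proj R` -/
def Cone : Set (Fin N → k) := {p | ∀ x, eval p (D.pf x) = 0}

/-- the degree of the determinant of `M` -/
def deg : ℤ := 2 * ∑ a, D.e a + n * D.ε

/-- `(n - 1 - 2 q) deg (det M) / 2`, which is `a(R) + ∑ w i` -/
def top : ℤ := (n - 1 - 2 * q) * D.deg / 2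

/-- the automorphism `xᵢ ↦ α i g • xᵢ` of the polynomial ring -/
noncomputable def act (g : G) : MvPolynomial (Fin N) k →ₐ[k] MvPolynomial (Fin N) k :=
  Pool.Agent.TH144.NV.act fun i => (D.α i g : k)

/-- the class of `a` in `R` is a `G`-invariant form of degree `m` -/
def Inv (m : ℕ) (a : MvPolynomial (Fin N) k) : Prop :=
  IsWeightedHomogeneous D.w a m ∧
    ∀ g, Ideal.Quotient.mk D.I (D.act g a) = Ideal.Quotient.mk D.I a

/-- the space `(R_m)^G` of the classes of these forms -/
noncomputable def sections (m : ℕ) : Submodule k (MvPolynomial (Fin N) k ⧸ D.I) where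
  carrier := {q | ∃ a, D.Inv m a ∧ Ideal.Quotient.mk D.I a = q}
  add_mem' := by
    rintro _ _ ⟨a, ha, rfl⟩ ⟨b, hb, rfl⟩
    refine ⟨a + b, ⟨ha.1.add hb.1, fun g => ?_⟩, map_add _ _ _⟩
    rw [map_add, map_add, map_add, ha.2, hb.2]
  zero_mem' := ⟨0, ⟨isWeightedHomogeneous_zero _ _ _, fun g => by rw [map_zero]⟩, map_zero _⟩
  smul_mem' := by
    rintro c _ ⟨a, ha, rfl⟩
    refine ⟨c • a, ⟨?_, fun g => ?_⟩, ?_⟩
    · exact (mem_weightedHomogeneousSubmodule k D.w m _).1
        (Submodule.smul_mem _ c ((mem_weightedHomogeneousSubmodule k D.w m _).2 ha.1))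
    · rw [map_smul]
      have h1 := ha.2 g
      rw [Ideal.Quotient.eq] at h1 ⊢
      rw [← smul_sub, smul_eq_C_mul]
      exact Ideal.mul_mem_left _ _ h1
    · exact map_smul (Ideal.Quotient.mkₐ k D.I) c a

/-- At every point of `Proj R` invariant forms of some consecutive degrees `hm`, `h(m+1)` do not
vanish. This holds if `⨁ₘ (R_{hm})^G` is the section ring of an ample invertible sheaf. -/
def SectionRing (h : ℕ) : Prop :=
  ∀ p ∈ D.Cone, p ≠ 0 → ∃ (m : ℕ) (a b : MvPolynomial (Fin N) k),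
    D.Inv (h * m) a ∧ D.Inv (h * (m + 1)) b ∧ eval p a ≠ 0 ∧ eval p b ≠ 0

theorem eval_mem {p : Fin N → k} (hp : p ∈ D.Cone) {a : MvPolynomial (Fin N) k} (ha : a ∈ D.I) :
    eval p a = 0 := by
  have h1 : D.I ≤ RingHom.ker (eval p) := by
    rw [I, Ideal.span_le]
    rintro _ ⟨j, rfl⟩
    exact (RingHom.mem_ker).2 (hp j)
  exact (RingHom.mem_ker).1 (h1 ha)

theorem eval_inv {p : Fin N → k} (hp : p ∈ D.Cone) {m : ℕ} {a : MvPolynomial (Fin N) k}
    (ha : D.Inv m a) (g : G) : eval (fun i => (D.α i g : k) * p i) a = eval p a := by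
  rw [← eval_act]
  have h1 := ha.2 g
  rw [Ideal.Quotient.eq] at h1
  have h2 := D.eval_mem hp h1
  rw [map_sub, sub_eq_zero] at h2
  exact h2

/-- eigenvalues of fixed lines are `h`-th roots of unity -/
theorem pow_eq_one {h : ℕ} (hS : D.SectionRing h) {p : Fin N → k} (hp : p ∈ D.Cone) (hp0 : p ≠ 0)
    (g : G) (μ : kˣ) (hfix : ∀ i, (D.α i g : k) * p i = (μ : k) ^ D.w i * p i) : μ ^ h = 1 := by
  obtain ⟨m, a, b, ha, hb, ha0, hb0⟩ := hS p hp hp0
  have key : ∀ {m : ℕ} {a : MvPolynomial (Fin N) k}, D.Inv m a → eval p a ≠ 0 →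
      (μ : k) ^ m = 1 := by
    intro m a ha ha0
    have h1 := D.eval_inv hp ha g
    rw [show (fun i => (D.α i g : k) * p i) = fun i => (μ : k) ^ D.w i * p i from funext hfix,
      eval_wscale ha.1] at h1
    exact mul_right_cancel₀ ha0 (by rw [h1, one_mul])
  have h1 := key ha ha0
  have h2 := key hb hb0
  rw [mul_add, pow_add, h1, one_mul, mul_one] at h2
  ext
  simpa using h2

/-- at a point where all minors of size `2 q + 1` vanish, the Pfaffians of size `2 q + 2` vanish -/
theorem mem_cone {p : Fin N → k}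
    (h : ∀ R C : Fin (2 * q + 1) → Fin n, ((D.M.map (eval p)).submatrix R C).det = 0) :
    p ∈ D.Cone := by
  intro x
  have h1 := det_succ_zero (D.M.map (eval p)) h x x
  have h2 : (eval p (D.pf x)) ^ 2 = 0 := by
    rw [← map_pow, D.pf_sq, RingHom.map_det]
    rw [← h1]
    rfl
  exact pow_eq_zero_iff (two_ne_zero) |>.1 h2

/-- nonvanishing entries have matching characters -/
theorem eval_entry {T : Finset (Fin N)} {g : G} {μ : kˣ} (hT : ∀ i, i ∈ T → D.α i g = μ ^ D.w i)
    {a b : Fin n} (hab : a ≠ b)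
    (hne : ∀ m : ℕ, 0 < m → (m : ℤ) = D.e a + D.e b + D.ε → D.χ a g * D.χ b g * D.ψ g ≠ μ ^ m)
    {p : Fin N → k} (hp : ∀ i, i ∉ T → p i = 0) : eval p (D.M a b) = 0 := by
  have h := D.pos a b hab
  obtain ⟨m, hm⟩ := Int.eq_ofNat_of_zero_le h.le
  have hm' : (m : ℤ) = D.e a + D.e b + D.ε := by rw [hm]
  refine eval_eq_zero_of_ne (D.homogeneous a b m hm') (fun i => (D.α i g : k))
    ((D.χ a g * D.χ b g * D.ψ g : kˣ) : k) (D.semi g a b) (μ : k) ?_ ?_
  · intro i
    by_cases hi : i ∈ T
    · rw [hT i hi, Units.val_pow_eq_pow_val]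
    · rw [hp i hi, mul_zero, mul_zero]
  · intro h1
    apply hne m (by omega) hm'
    ext
    rw [h1, Units.val_pow_eq_pow_val]

theorem two_top : 2 * D.top = (n - 1 - 2 * q) * D.deg := by
  have h1 : (2 : ℤ) ∣ (n - 1 - 2 * q) * D.deg := by
    rcases Nat.even_or_odd n with h | h
    · obtain ⟨m, hm⟩ := h
      refine Dvd.dvd.mul_left ?_ _
      refine ⟨∑ a, D.e a + m * D.ε, ?_⟩
      have hm' : (n : ℤ) = m + m := by exact_mod_cast hm
      unfold deg
      rw [hm']
      ring
    · obtain ⟨m, hm⟩ := h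
      refine Dvd.dvd.mul_right ?_ _
      refine ⟨m - q, ?_⟩
      have hm' : (n : ℤ) = 2 * m + 1 := by exact_mod_cast hm
      rw [hm']
      ring
  unfold top
  exact Int.mul_ediv_cancel' h1

/-- the degree of the determinant is positive -/
theorem deg_pos (hn : 2 ≤ n) : 0 < D.deg := by
  have h1 : 0 < ∑ a : Fin n, (D.e a + D.e (finRotate n a) + D.ε) := by
    have hne : (univ : Finset (Fin n)).Nonempty := ⟨⟨0, by omega⟩, mem_univ _⟩
    refine Finset.sum_pos (fun a _ => D.pos _ _ ?_) hne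
    obtain ⟨m, rfl⟩ : ∃ m, n = m + 1 := ⟨n - 1, by omega⟩
    rw [finRotate_apply]
    intro h
    have h2 : (1 : Fin (m + 1)) = 0 := by
      have h3 : a + 1 = a + 0 := by rw [add_zero]; exact h.symm
      exact add_left_cancel h3
    have h4 : m = 0 := by
      have := Fin.one_eq_zero_iff.1 h2
      omega
    omega
  have h2 : ∑ a : Fin n, (D.e a + D.e (finRotate n a) + D.ε) = D.deg := by
    simp only [Finset.sum_add_distrib]
    rw [Equiv.sum_comp (finRotate n) D.e]
    unfold deg
    simp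
    ring
  omega

/-- the scalars attached to the indices -/
noncomputable def zz (g : G) (μ : kˣ) (a : Fin n) : kˣ := D.χ a g * μ ^ (- D.e a)

/-- the scalar attached to the edges -/
noncomputable def tt (g : G) (μ : kˣ) : kˣ := (D.ψ g)⁻¹ * μ ^ D.ε

theorem zz_iff (g : G) (μ : kˣ) (a b : Fin n) (m : ℕ) (hm : (m : ℤ) = D.e a + D.e b + D.ε) :
    D.zz g μ a * D.zz g μ b = D.tt g μ ↔ D.χ a g * D.χ b g * D.ψ g = μ ^ m := by
  have e1 : D.zz g μ a * D.zz g μ b = D.χ a g * D.χ b g * (μ ^ (D.e a + D.e b))⁻¹ := by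
    simp only [zz]
    rw [zpow_add, zpow_neg, zpow_neg, mul_inv]
    exact mul_mul_mul_comm _ _ _ _
  have e2 : μ ^ m = μ ^ (D.e a + D.e b) * μ ^ D.ε := by
    rw [← zpow_add, ← hm, zpow_natCast]
  rw [e1, e2, tt]
  constructor
  · intro h1
    have h2 : D.χ a g * D.χ b g = (D.ψ g)⁻¹ * μ ^ D.ε * μ ^ (D.e a + D.e b) := by
      rw [← h1, inv_mul_cancel_right]
    rw [h2, mul_comm (_ * _ * _) (D.ψ g), ← mul_assoc, ← mul_assoc, mul_inv_cancel, one_mul,
      mul_comm]
  · intro h1
    have h2 : D.χ a g * D.χ b g = μ ^ (D.e a + D.e b) * μ ^ D.ε * (D.ψ g)⁻¹ := by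
      rw [← h1, mul_inv_cancel_right]
    rw [h2, mul_comm, ← mul_assoc, ← mul_assoc, inv_mul_cancel, one_mul, mul_comm]

/-- if there is a perfect matching, the Pfaffian of `M` takes part -/
theorem perfect (hn : Even n) (g : G) (μ : kˣ) (u v : Fin (n / 2) → Fin n)
    (hinj : Function.Injective (Sum.elim u v))
    (huv : ∀ i, D.zz g μ (u i) * D.zz g μ (v i) = D.tt g μ) (m : ℕ) (hm : 2 * (m : ℤ) = D.deg) :
    (∏ a, D.χ a g) * D.ψ g ^ (n / 2) = μ ^ m := by
  have hbij : Function.Bijective (Sum.elim u v) := by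
    rw [Fintype.bijective_iff_injective_and_card]
    refine ⟨hinj, ?_⟩
    rw [Fintype.card_sum, Fintype.card_fin, Fintype.card_fin]
    obtain ⟨l, hl⟩ := hn
    omega
  have h1 : ∏ a, D.zz g μ a = D.tt g μ ^ (n / 2) := by
    rw [← Equiv.prod_comp (Equiv.ofBijective _ hbij) (D.zz g μ), Fintype.prod_sum_type]
    rw [← Finset.prod_mul_distrib]
    have h2 : ∀ i : Fin (n / 2), D.zz g μ (Equiv.ofBijective _ hbij (Sum.inl i)) *
        D.zz g μ (Equiv.ofBijective _ hbij (Sum.inr i)) = D.tt g μ := fun i => huv i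
    rw [Finset.prod_congr rfl (fun i _ => h2 i), Finset.prod_const, Finset.card_univ,
      Fintype.card_fin]
  have h3 : ∏ a, D.zz g μ a = (∏ a, D.χ a g) * μ ^ (- ∑ a, D.e a) := by
    simp only [zz]
    rw [Finset.prod_mul_distrib]
    congr 1
    rw [← Finset.sum_neg_distrib]
    have h4 : ∀ s : Finset (Fin n), ∏ a ∈ s, μ ^ (- D.e a) = μ ^ (∑ a ∈ s, - D.e a) := by
      intro s
      classical
      induction s using Finset.induction_on with
      | empty => simp
      | insert a s ha ih => rw [Finset.prod_insert ha, Finset.sum_insert ha, zpow_add, ih]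
    exact h4 univ
  have h5 : D.tt g μ ^ (n / 2) = (D.ψ g ^ (n / 2))⁻¹ * μ ^ (D.ε * (n / 2 : ℕ)) := by
    rw [tt, mul_pow, inv_pow, zpow_mul, zpow_natCast]
  rw [h3, h5] at h1
  have h6 : (m : ℤ) = D.ε * (n / 2 : ℕ) + ∑ a, D.e a := by
    obtain ⟨l, hl⟩ := hn
    have h7 : n / 2 = l := by omega
    have h8 : (n : ℤ) = l + l := by exact_mod_cast hl
    rw [h7]
    unfold deg at hm
    rw [h8] at hm
    linarith
  have h9 : (∏ a, D.χ a g) = (D.ψ g ^ (n / 2))⁻¹ * μ ^ (D.ε * (n / 2 : ℕ)) * μ ^ (∑ a, D.e a) := by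
    rw [← h1, mul_assoc, ← zpow_add, neg_add_cancel, zpow_zero, mul_one]
  have h11 : μ ^ m = μ ^ (D.ε * (n / 2 : ℕ)) * μ ^ (∑ a, D.e a) := by
    rw [← zpow_add, ← h6, zpow_natCast]
  rw [h9, h11]
  have h10 : ∀ A B C' : kˣ, A⁻¹ * B * C' * A = B * C' := by
    intro A B C'
    rw [mul_comm _ A, ← mul_assoc, ← mul_assoc, mul_inv_cancel, one_mul]
  exact h10 _ _ _

/-- the fixed coordinates and the edges of the graph -/
theorem fixed (hDim : S_Dim) (hGen : S_Gen) (hMat : S_Mat) [IsAlgClosed k] [CharZero k]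
    (hq0 : 1 ≤ q) (hq : 2 * q < n) {h : ℕ} (hS : D.SectionRing h) (g : G) (μ : kˣ)
    (hμ : μ ^ h ≠ 1) (T : Finset (Fin N)) (hT : ∀ i, i ∈ T → D.α i g = μ ^ D.w i) :
    (Odd n → (n - 1) * T.card ≤ (n - 1 - 2 * q) * (edges (D.zz g μ) (D.tt g μ)).card) ∧
    (Even n → (n - 2) * T.card ≤ (n - 2 - 2 * q) * (edges (D.zz g μ) (D.tt g μ)).card ∨
      ((n - 2) * T.card ≤ (n - 2 - 2 * q) * (edges (D.zz g μ) (D.tt g μ)).card + 2 * q ∧
        ∃ u v : Fin (n / 2) → Fin n, Function.Injective (Sum.elim u v) ∧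
          ∀ i, (u i, v i) ∈ edges (D.zz g μ) (D.tt g μ))) := by
  refine hMat n q T.card _ hq0 hq (fun x hx => (mem_edges.1 hx).1) ?_
  intro p hp u v hinj huv
  refine count hDim hGen D.w_pos D.pos D.M D.diag D.skew D.homogeneous T _ _ ?_ ?_ hp u v hinj
    (fun i => (mem_edges.1 (huv i)).2)
  · intro a b hab x hx
    rcases eq_or_ne a b with rfl | hne
    · rw [D.diag, map_zero]
    · exact D.eval_entry hT hne (fun m _ hm h1 => hab ((D.zz_iff g μ a b m hm).2 h1)) hx
  · intro x hx hmin
    by_contra hx0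
    refine hμ (D.pow_eq_one hS (D.mem_cone hmin) hx0 g μ (fun i => ?_))
    by_cases hi : i ∈ T
    · rw [hT i hi, Units.val_pow_eq_pow_val]
    · rw [hx i hi, mul_zero, mul_zero]

theorem exists_degree (a b : Fin n) (hab : a ≠ b) : ∃ m : ℕ, 0 < m ∧ (m : ℤ) = D.e a + D.e b + D.ε
    ∧ IsWeightedHomogeneous D.w (D.M a b) m := by
  obtain ⟨m, hm⟩ := Int.eq_ofNat_of_zero_le (D.pos a b hab).le
  have := D.pos a b hab
  exact ⟨m, by omega, hm.symm, D.homogeneous a b m hm.symm⟩

open Classical in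
/-- averaging over the group -/
theorem average [IsAlgClosed k] [CharZero k] [Finite G] {h : ℕ} (c A B m : ℕ) (hc : 0 < c)
    (hm : 0 < m) (ω : G →* kˣ)
    (H : ∀ (g : G) (μ : kˣ), μ ^ h ≠ 1 → c * (univ.filter fun i => D.α i g = μ ^ D.w i).card
      ≤ A * (edges (D.zz g μ) (D.tt g μ)).card + (if ω g = μ ^ m then B else 0))
    (htot : (A : ℤ) * ∑ x ∈ univ.filter (fun x : Fin n × Fin n => x.1 < x.2),
      (D.e x.1 + D.e x.2 + D.ε) + B * m = c * D.top) :
    ∑ i ∈ univ.filter (fun i => ¬ Good h (D.w i) (D.α i)), (D.w i : ℤ) ≤ D.top := by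
  choose d hd0 hd hhom using D.exists_degree
  let P := {x : Fin n × Fin n // x.1 < x.2}
  let δ : (Fin A × P) ⊕ Fin B → ℕ := Sum.elim (fun y => d y.2.1.1 y.2.1.2 y.2.2.ne) (fun _ => m)
  let κ : (Fin A × P) ⊕ Fin B → (G →* kˣ) :=
    Sum.elim (fun y => D.χ y.2.1.1 * D.χ y.2.1.2 * D.ψ) (fun _ => ω)
  have hδ : ∀ y, 0 < δ y := by
    rintro (y | y)
    · exact hd0 _ _ _
    · exact hm
  have main := main_ineq (k := k) (G := G) (fun x : Fin c × Fin N => D.w x.2)
    (fun x => D.w_pos x.2) δ hδ (fun x => D.α x.2) κ h (by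
    intro g μ hμ
    have h1 := H g μ hμ
    have e1 : (univ.filter fun x : Fin c × Fin N => D.α x.2 g = μ ^ D.w x.2).card
        = c * (univ.filter fun i => D.α i g = μ ^ D.w i).card := by
      have : (univ.filter fun x : Fin c × Fin N => D.α x.2 g = μ ^ D.w x.2)
          = (univ : Finset (Fin c)) ×ˢ (univ.filter fun i => D.α i g = μ ^ D.w i) := by
        ext x
        simp
      rw [this, Finset.card_product, Finset.card_univ, Fintype.card_fin]
    have e2 : (univ.filter fun y => κ y g = μ ^ δ y).card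
        = A * (edges (D.zz g μ) (D.tt g μ)).card + (if ω g = μ ^ m then B else 0) := by
      rw [Finset.card_filter, Fintype.sum_sum_type, ← Finset.card_filter, ← Finset.card_filter]
      congr 1
      · have e3 : ∀ y : Fin A × P, κ (Sum.inl y) g = μ ^ δ (Sum.inl y) ↔
            y.2.1 ∈ edges (D.zz g μ) (D.tt g μ) := by
          intro y
          rw [mem_edges]
          have e4 := D.zz_iff g μ y.2.1.1 y.2.1.2 (d _ _ y.2.2.ne) (hd _ _ _)
          constructor
          · intro e5
            exact ⟨y.2.2, e4.2 e5⟩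
          · intro e5
            exact e4.1 e5.2
        simp only [e3]
        have e5 : (univ.filter fun y : Fin A × P => y.2.1 ∈ edges (D.zz g μ) (D.tt g μ))
            = (univ : Finset (Fin A)) ×ˢ
              (univ.filter fun y : P => y.1 ∈ edges (D.zz g μ) (D.tt g μ)) := by
          ext x
          simp
        rw [e5, Finset.card_product, Finset.card_univ, Fintype.card_fin]
        congr 1
        refine Finset.card_bij (fun y _ => y.1) ?_ ?_ ?_
        · intro y hy
          exact (Finset.mem_filter.1 hy).2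
        · intro x _ y _ hxy
          exact Subtype.ext hxy
        · intro x hx
          exact ⟨⟨x, (mem_edges.1 hx).1⟩, Finset.mem_filter.2 ⟨mem_univ _, hx⟩, rfl⟩
      · by_cases hω : ω g = μ ^ m
        · rw [if_pos hω]
          have : (univ.filter fun y : Fin B => κ (Sum.inr y) g = μ ^ δ (Sum.inr y)) = univ := by
            ext y
            simp only [mem_filter, mem_univ, true_and, iff_true]
            exact hω
          rw [this, Finset.card_univ, Fintype.card_fin]
        · rw [if_neg hω]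
          have : (univ.filter fun y : Fin B => κ (Sum.inr y) g = μ ^ δ (Sum.inr y)) = ∅ := by
            ext y
            simp only [mem_filter, mem_univ, true_and, Finset.notMem_empty, iff_false]
            exact hω
          rw [this, Finset.card_empty]
    rw [← e1, ← e2] at h1
    exact h1)
  have h1 : ∑ x ∈ univ.filter (fun x : Fin c × Fin N => ¬ Good h (D.w x.2) (D.α x.2)), D.w x.2
      = c * ∑ i ∈ univ.filter (fun i => ¬ Good h (D.w i) (D.α i)), D.w i := by
    have : (univ.filter fun x : Fin c × Fin N => ¬ Good h (D.w x.2) (D.α x.2))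
        = (univ : Finset (Fin c)) ×ˢ univ.filter (fun i => ¬ Good h (D.w i) (D.α i)) := by
      ext x
      simp
    rw [this, Finset.sum_product]
    simp
  have h2 : ∑ y ∈ univ.filter (fun y => ¬ Good h (δ y) (κ y)), δ y ≤ ∑ y, δ y :=
    Finset.sum_le_sum_of_subset (Finset.filter_subset _ _)
  have h3 : ((∑ y, δ y : ℕ) : ℤ) = c * D.top := by
    rw [← htot, Fintype.sum_sum_type, Fintype.sum_prod_type]
    simp only [Finset.sum_const, Finset.card_univ, Fintype.card_fin, smul_eq_mul, δ, Sum.elim_inl,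
      Sum.elim_inr]
    push_cast
    simp only [hd, Finset.sum_const, Finset.card_univ, Fintype.card_fin, nsmul_eq_mul]
    congr 2
    refine Finset.sum_bij (fun y _ => y.1) ?_ ?_ ?_ ?_
    · intro y _
      exact Finset.mem_filter.2 ⟨mem_univ _, y.2⟩
    · intro x _ y _ hxy
      exact Subtype.ext hxy
    · intro x hx
      exact ⟨⟨x, (Finset.mem_filter.1 hx).2⟩, mem_univ _, rfl⟩
    · intro y _
      rfl
  have h4 : c * ∑ i ∈ univ.filter (fun i => ¬ Good h (D.w i) (D.α i)), D.w i ≤ ∑ y, δ y := by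
    rw [← h1]
    exact le_trans (by convert main) h2
  have h5 : (c : ℤ) * ∑ i ∈ univ.filter (fun i => ¬ Good h (D.w i) (D.α i)), (D.w i : ℤ)
      ≤ c * D.top := by
    rw [← h3]
    exact_mod_cast h4
  exact le_of_mul_le_mul_left h5 (by omega)

theorem two_pairs : 2 * ∑ x ∈ univ.filter (fun x : Fin n × Fin n => x.1 < x.2),
      (D.e x.1 + D.e x.2 + D.ε) = (n - 1) * D.deg := by
  rw [sum_pairs]
  unfold deg
  ring

open Classical in
/-- the weights which take no part in level `h` -/
theorem not_good_le (hDim : S_Dim) (hGen : S_Gen) (hMat : S_Mat) [IsAlgClosed k] [CharZero k]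
    [Finite G] (hq0 : 1 ≤ q) (hq : 2 * q < n) {h : ℕ} (hS : D.SectionRing h) :
    ∑ i ∈ univ.filter (fun i => ¬ Good h (D.w i) (D.α i)), (D.w i : ℤ) ≤ D.top := by
  have htt := D.two_top
  have hpp := D.two_pairs
  rcases Nat.even_or_odd n with hn | hn
  · -- even size
    obtain ⟨l, hl⟩ := id hn
    have hl' : (n : ℤ) = l + l := by exact_mod_cast hl
    obtain ⟨m, hm⟩ : ∃ m : ℕ, 2 * (m : ℤ) = D.deg := by
      have h1 := D.deg_pos (by omega)
      have h2 : D.deg = 2 * (∑ a, D.e a + l * D.ε) := by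
        unfold deg
        rw [hl']
        ring
      refine ⟨(∑ a, D.e a + l * D.ε).toNat, ?_⟩
      rw [Int.toNat_of_nonneg (by omega)]
      exact h2.symm
    have hdeg := D.deg_pos (by omega)
    refine D.average (n - 2) (n - 2 - 2 * q) (2 * q) m (by omega) (by omega)
      ((∏ a, D.χ a) * D.ψ ^ (n / 2)) ?_ ?_
    · intro g μ hμ
      have h1 := (D.fixed hDim hGen hMat hq0 hq hS g μ hμ
        (univ.filter fun i => D.α i g = μ ^ D.w i) (fun i hi => (Finset.mem_filter.1 hi).2)).2 hn
      rcases h1 with h1 | ⟨h1, u, v, huv, hE⟩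
      · exact h1.trans (Nat.le_add_right _ _)
      · have h2 : ((∏ a, D.χ a) * D.ψ ^ (n / 2)) g = μ ^ m := by
          rw [MonoidHom.mul_apply, MonoidHom.finsetProd_apply, MonoidHom.pow_apply]
          exact D.perfect hn g μ u v huv (fun i => (mem_edges.1 (hE i)).2) m hm
        rw [if_pos h2]
        exact h1
    · have h1 : (((n - 2 : ℕ) : ℕ) : ℤ) = n - 2 := by
        rw [Nat.cast_sub (by omega)]; rfl
      have h2 : (((n - 2 - 2 * q : ℕ) : ℕ) : ℤ) = n - 2 - 2 * q := by
        rw [Nat.cast_sub (by omega), h1]; push_cast; ring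
      rw [h1, h2]
      push_cast
      apply mul_left_cancel₀ (two_ne_zero (α := ℤ))
      linear_combination (n - 2 - 2 * q : ℤ) * hpp + 2 * (q : ℤ) * hm - (n - 2 : ℤ) * htt
  · -- odd size
    refine D.average (n - 1) (n - 1 - 2 * q) 0 1 (by omega) one_pos 1 ?_ ?_
    · intro g μ hμ
      have h1 := (D.fixed hDim hGen hMat hq0 hq hS g μ hμ
        (univ.filter fun i => D.α i g = μ ^ D.w i) (fun i hi => (Finset.mem_filter.1 hi).2)).1 hn
      exact h1.trans (Nat.le_add_right _ _)
    · have h1 : (((n - 1 : ℕ) : ℕ) : ℤ) = n - 1 := by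
        rw [Nat.cast_sub (by omega)]; rfl
      have h2 : (((n - 1 - 2 * q : ℕ) : ℕ) : ℤ) = n - 1 - 2 * q := by
        rw [Nat.cast_sub (by omega), h1]; push_cast; ring
      rw [h1, h2]
      push_cast
      apply mul_left_cancel₀ (two_ne_zero (α := ℤ))
      linear_combination (n - 1 - 2 * q : ℤ) * hpp - (n - 1 : ℤ) * htt

/-- the ideal contains no forms of degree one -/
theorem eq_zero_of_mem (hq0 : 1 ≤ q) {u : MvPolynomial (Fin N) k}
    (hu : IsWeightedHomogeneous D.w u 1) (hI : u ∈ D.I) : u = 0 := by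
  have h1 : ∀ x, (Polynomial.X : Polynomial (MvPolynomial (Fin N) k)) ^ 2 ∣ φ D.w (D.pf x) := by
    intro x
    apply X_sq_dvd
    have h2 : ∀ a b, (Polynomial.X : Polynomial (MvPolynomial (Fin N) k)) ∣ φ D.w (D.M a b) := by
      intro a b
      rcases eq_or_ne a b with rfl | hab
      · rw [D.diag, map_zero]
        exact dvd_zero _
      · obtain ⟨m, hm, _, hom⟩ := D.exists_degree a b hab
        rw [φ_hom hom]
        exact Dvd.dvd.mul_left (dvd_pow_self _ hm.ne') _
    choose Q hQ using h2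
    have h3 : (φ D.w).toRingHom.mapMatrix (D.M.submatrix x x) =
        (Polynomial.X : Polynomial (MvPolynomial (Fin N) k)) •
          (Matrix.of fun i j => Q (x i) (x j)) := by
      ext1 a b
      simp only [RingHom.mapMatrix_apply, Matrix.map_apply, Matrix.smul_apply, Matrix.of_apply,
        smul_eq_mul, Matrix.submatrix_apply]
      exact hQ _ _
    have h4 : φ D.w (D.pf x) ^ 2 = Polynomial.X ^ (2 * q + 2) *
        (Matrix.of fun i j => Q (x i) (x j)).det := by
      rw [← map_pow, D.pf_sq]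
      have h5 : φ D.w ((D.M.submatrix x x).det)
          = ((φ D.w).toRingHom.mapMatrix (D.M.submatrix x x)).det := by
        rw [← RingHom.map_det]; rfl
      rw [h5, h3, Matrix.det_smul, Fintype.card_fin]
    rw [h4]
    exact Dvd.dvd.mul_right (pow_dvd_pow _ (by omega)) _
  have h2 : (Polynomial.X : Polynomial (MvPolynomial (Fin N) k)) ^ 2 ∣ φ D.w u := by
    have h3 : Ideal.span (Set.range D.pf) ≤
        Ideal.comap (φ D.w).toRingHom (Ideal.span {Polynomial.X ^ 2}) := by
      rw [Ideal.span_le]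
      rintro _ ⟨x, rfl⟩
      rw [SetLike.mem_coe, Ideal.mem_comap, Ideal.mem_span_singleton]
      exact h1 x
    have h4 := h3 hI
    rw [Ideal.mem_comap, Ideal.mem_span_singleton] at h4
    exact h4
  rw [φ_hom hu, pow_one, Polynomial.X_pow_dvd_iff] at h2
  have h3 := h2 1 (by norm_num)
  simpa using h3

theorem finite_sections_one : FiniteDimensional k (D.sections 1) := by
  let π : MvPolynomial (Fin N) k →ₗ[k] (MvPolynomial (Fin N) k ⧸ D.I) :=
    (Ideal.Quotient.mkₐ k D.I).toLinearMap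
  have h1 : FiniteDimensional k
      (Submodule.span k (Set.range (X : Fin N → MvPolynomial (Fin N) k))) :=
    FiniteDimensional.span_of_finite k (Set.finite_range _)
  have h3 : D.sections 1 ≤ Submodule.map π
      (Submodule.span k (Set.range (X : Fin N → MvPolynomial (Fin N) k))) := by
    rintro _ ⟨a, ha, rfl⟩
    exact ⟨a, mem_span_X D.w_pos ha.1, rfl⟩
  exact Submodule.finiteDimensional_of_le h3

/-- variables of degree one are linearly independent in `R` -/
theorem card_le_finrank (hq0 : 1 ≤ q) (T : Finset (Fin N))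
    (hInv : ∀ i ∈ T, D.Inv 1 (X i)) : T.card ≤ Module.finrank k (D.sections 1) := by
  classical
  have hfin := D.finite_sections_one
  have hmem : ∀ c : {i // i ∈ T} → k,
      Ideal.Quotient.mk D.I (∑ i, c i • (X i.1 : MvPolynomial (Fin N) k)) ∈ D.sections 1 := by
    intro c
    rw [map_sum]
    refine Submodule.sum_mem _ (fun i _ => ?_)
    have h1 : Ideal.Quotient.mk D.I (c i • (X i.1 : MvPolynomial (Fin N) k))
        = c i • Ideal.Quotient.mk D.I (X i.1) := map_smul (Ideal.Quotient.mkₐ k D.I) _ _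
    rw [h1]
    exact Submodule.smul_mem _ _ ⟨X i.1, hInv i.1 i.2, rfl⟩
  let F : ({i // i ∈ T} → k) →ₗ[k] D.sections 1 :=
    { toFun := fun c => ⟨Ideal.Quotient.mk D.I (∑ i, c i • (X i.1 : MvPolynomial (Fin N) k)),
        hmem c⟩
      map_add' := by
        intro c d
        apply Subtype.ext
        simp only [Pi.add_apply, add_smul, Finset.sum_add_distrib, map_add]
        rfl
      map_smul' := by
        intro r' c
        apply Subtype.ext
        simp only [Pi.smul_apply, smul_eq_mul, mul_smul, ← Finset.smul_sum, RingHom.id_apply]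
        exact map_smul (Ideal.Quotient.mkₐ k D.I) _ _ }
  have hF : Function.Injective F := by
    rw [injective_iff_map_eq_zero]
    intro c hc
    have h1 : Ideal.Quotient.mk D.I (∑ i, c i • (X i.1 : MvPolynomial (Fin N) k)) = 0 :=
      congrArg Subtype.val hc
    rw [Ideal.Quotient.eq_zero_iff_mem] at h1
    have h2 : IsWeightedHomogeneous D.w (∑ i, c i • (X i.1 : MvPolynomial (Fin N) k)) 1 := by
      rw [← mem_weightedHomogeneousSubmodule]
      refine Submodule.sum_mem _ (fun i _ => Submodule.smul_mem _ _ ?_)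
      rw [mem_weightedHomogeneousSubmodule]
      exact (hInv i.1 i.2).1
    have h3 := D.eq_zero_of_mem hq0 h2 h1
    have h4 : LinearIndependent k (fun i : {i // i ∈ T} => (X i.1 : MvPolynomial (Fin N) k)) :=
      (linearIndependent_X (Fin N) k).comp _ Subtype.val_injective
    funext i
    exact (Fintype.linearIndependent_iff.1 h4) c h3 i
  have h5 := LinearMap.finrank_le_finrank_of_injective hF
  simpa [Module.finrank_fintype_fun_eq_card, Fintype.card_coe] using h5

end Datum

open Classical in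
theorem main_of (hDim : S_Dim) (hGen : S_Gen) (hMat : S_Mat) [IsAlgClosed k] [CharZero k] [Finite G]
    (D : Datum k G N n q) {h : ℕ} (hq0 : 1 ≤ q) (hq : 2 * q < n) (hh : 0 < h)
    -- no variable vanishes on the cone
    (hfull : ∀ i, ∃ p ∈ D.Cone, p i ≠ 0)
    -- the ring of the `(R_{hm})^G` is a section ring
    (hS : D.SectionRing h) :
    (∃ T : Finset (Fin N), ∑ i, (D.w i : ℤ) ≤ D.top + ∑ i ∈ T, (D.w i : ℤ) ∧
      ∀ i ∈ T, D.w i ∣ h ∧ D.Inv h (X i ^ (h / D.w i)) ∧
        ¬ IsNilpotent (Ideal.Quotient.mk D.I (X i ^ (h / D.w i)))) ∧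
    (D.top < ∑ i, (D.w i : ℤ) → ∃ s ∈ D.sections h, ¬ IsNilpotent s) ∧
    (h = 1 → ∑ i, (D.w i : ℤ) - D.top ≤ Module.finrank k (D.sections 1)) := by
  have hmain := D.not_good_le hDim hGen hMat hq0 hq hS
  set T : Finset (Fin N) := univ.filter fun i => Good h (D.w i) (D.α i) with hT
  have hsum : ∑ i, (D.w i : ℤ) ≤ D.top + ∑ i ∈ T, (D.w i : ℤ) := by
    have h1 := Finset.sum_filter_add_sum_filter_not (univ : Finset (Fin N))
      (fun i => Good h (D.w i) (D.α i)) (fun i => (D.w i : ℤ))
    rw [← hT] at h1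
    linarith
  have hprop : ∀ i ∈ T, D.w i ∣ h ∧ D.Inv h (X i ^ (h / D.w i)) ∧
        ¬ IsNilpotent (Ideal.Quotient.mk D.I (X i ^ (h / D.w i))) := by
    intro i hi
    obtain ⟨hdvd, hα⟩ := ((Finset.mem_filter.1 hi).2).dvd (D.w_pos i)
    have hne : h / D.w i ≠ 0 := by
      intro h0
      have := Nat.div_mul_cancel hdvd
      rw [h0, zero_mul] at this
      omega
    refine ⟨hdvd, ⟨?_, ?_⟩, ?_⟩
    · have h1 := (isWeightedHomogeneous_X k D.w i).pow (h / D.w i)
      rwa [smul_eq_mul, Nat.div_mul_cancel hdvd] at h1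
    · intro g
      have h1 : D.act g (X i ^ (h / D.w i)) = X i ^ (h / D.w i) := by
        rw [map_pow]
        show (Pool.Agent.TH144.NV.act (fun i => (D.α i g : k)) (X i)) ^ _ = _
        unfold Pool.Agent.TH144.NV.act
        rw [aeval_X, mul_pow, ← C_pow, ← Units.val_pow_eq_pow_val, hα g, Units.val_one, C_1,
          one_mul]
      rw [h1]
    · rintro ⟨m, hm⟩
      obtain ⟨p, hp, hpi⟩ := hfull i
      rw [← map_pow, Ideal.Quotient.eq_zero_iff_mem] at hm
      have := D.eval_mem hp hm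
      rw [map_pow, map_pow, eval_X] at this
      exact hpi (eq_zero_of_pow_eq_zero (eq_zero_of_pow_eq_zero this))
  refine ⟨⟨T, hsum, hprop⟩, ?_, ?_⟩
  · intro hlt
    have hne : T.Nonempty := by
      rw [Finset.nonempty_iff_ne_empty]
      intro h0
      rw [h0, Finset.sum_empty] at hsum
      omega
    obtain ⟨i, hi⟩ := hne
    exact ⟨_, ⟨_, (hprop i hi).2.1, rfl⟩, (hprop i hi).2.2⟩
  · rintro rfl
    have hw1 : ∀ i ∈ T, D.w i = 1 := fun i hi => Nat.dvd_one.1 (hprop i hi).1
    have h1 := D.card_le_finrank hq0 T (fun i hi => by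
      have h2 := (hprop i hi).2.1
      rw [hw1 i hi] at h2
      simpa using h2)
    have h2 : ∑ i ∈ T, (D.w i : ℤ) = T.card := by
      rw [Finset.sum_congr rfl (fun i hi => by rw [hw1 i hi, Nat.cast_one])]
      simp
    rw [h2] at hsum
    have h3 : (T.card : ℤ) ≤ Module.finrank k (D.sections 1) := by exact_mod_cast h1
    linarith

open Classical in
theorem result [IsAlgClosed k] [CharZero k] [Finite G] (D : Datum k G N n q) {h : ℕ}
    (hq0 : 1 ≤ q) (hq : 2 * q < n) (hh : 0 < h)
    -- no variable vanishes on the cone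
    (hfull : ∀ i, ∃ p ∈ D.Cone, p i ≠ 0)
    -- the ring of the `(R_{hm})^G` is a section ring
    (hS : D.SectionRing h) :
    (∃ T : Finset (Fin N), ∑ i, (D.w i : ℤ) ≤ D.top + ∑ i ∈ T, (D.w i : ℤ) ∧
      ∀ i ∈ T, D.w i ∣ h ∧ D.Inv h (X i ^ (h / D.w i)) ∧
        ¬ IsNilpotent (Ideal.Quotient.mk D.I (X i ^ (h / D.w i)))) ∧
    (D.top < ∑ i, (D.w i : ℤ) → ∃ s ∈ D.sections h, ¬ IsNilpotent s) ∧
    (h = 1 → ∑ i, (D.w i : ℤ) - D.top ≤ Module.finrank k (D.sections 1)) :=
  main_of Pool.Agent.Q38.PX.dim Pool.Agent.Q92.PX.gen Pool.Agent.Q177.PX.mat D hq0 hq hh hfull hS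

end Pool.Agent.Results.MP_954e53_ag.PfaffianFormats
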