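import Pool.Agent.Q35.PX.CntS
import Pool.Agent.Q38.PX.Dim
import Pool.Agent.Q49.PX.GenS
import Pool.Agent.Q49.PX.MatS
import Pool.Agent.Y374.PF.Zero
import Pool.Agent.Y374.PF.Degree

/-!
# Section rings from symmetric determinantal formats: sections of the generating sheaf

`R = k[x₁, …, x_N]/I` with positive weights `w i`, where `I` is generated by the minors of size
`r + 1` of a homogeneous symmetric matrix of size `n` with entries of positive degrees, a finite
group `G` acting diagonally, and `S = ⨁ₘ (R_{hm})^G`. If `S` is a section ring and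
`2 ∑ w i > (n - r + 1) deg (det M)`, i.e. `a(R) < 0`, then `S₁ ≠ 0`; if `h = 1`, then
`dim S₁ ≥ -a(R)`.

Idea of the proof. Let `V` be the linear span of the coordinates which are fixed by an element of
`G × μ_∞` whose character on `S₁` is not trivial; at the points of `V`, except the origin, the
matrix has rank greater than `r`. The entries which do not vanish on `V` form a graph with loops
on the `n` indices, `a — b` if `z a z b = τ`. For a matching with `s ≤ r` vertices (loops are
allowed) there is a generic symmetric matrix of rank `s` with support in the graph, for which all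
the entries in the rows of the matching are independent (the other entries are a Schur
complement); so `dim V` is at most the number of the edges which avoid the matching. For a
suitable matching this is at most `(n - r + 1) / (2 n)` times the number of the ordered pairs
`(a, b)` with `z a z b = τ`, and the result is averaged over the group against `1 - Re μ ^ h`.
-/

set_option autoImplicit false

namespace Pool.Agent.Results.MP_954e53_ag.SymmetricFormats

open MvPolynomial Finset Pool.Agent.TH144.NV Pool.Agent.Y374.PF Pool.Agent.Q35.PX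

/-- A homogeneous symmetric matrix over a polynomial ring with positive weights and a diagonal
action of `G`. `w i`: weights of the variables; the entry `M a b` is homogeneous of degree
`e a + e b + ε > 0`; `G` acts by the characters `α i` on the variables, and by `χ a χ b ψ` on
`M a b`. -/
structure Datum (k : Type) [Field k] (G : Type) [Group G] (N n : ℕ) where
  w : Fin N → ℕ
  w_pos : ∀ i, 0 < w i
  e : Fin n → ℤ
  ε : ℤ
  pos : ∀ a b, 0 < e a + e b + ε
  M : Matrix (Fin n) (Fin n) (MvPolynomial (Fin N) k)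
  symm : ∀ a b, M b a = M a b
  homogeneous : ∀ a b (m : ℕ), (m : ℤ) = e a + e b + ε → IsWeightedHomogeneous w (M a b) m
  α : Fin N → G →* kˣ
  χ : Fin n → G →* kˣ
  ψ : G →* kˣ
  semi : ∀ g a b, act (fun i => (α i g : k)) (M a b) = C ((χ a g * χ b g * ψ g : kˣ) : k) * M a b

variable {k : Type} [Field k] {G : Type} [Group G] {N n : ℕ}

namespace Datum

variable (D : Datum k G N n) (r : ℕ)

/-- the minor of size `r + 1` with the rows `x.1` and the columns `x.2` -/
noncomputable def minor (x : (Fin (r + 1) → Fin n) × (Fin (r + 1) → Fin n)) :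
    MvPolynomial (Fin N) k := (D.M.submatrix x.1 x.2).det

/-- the ideal of the minors of size `r + 1` -/
noncomputable def I : Ideal (MvPolynomial (Fin N) k) := Ideal.span (Set.range (D.minor r))

/-- the cone over `Proj R` -/
def Cone : Set (Fin N → k) := {p | ∀ x, eval p (D.minor r x) = 0}

/-- the degree of the determinant of `M` -/
def deg : ℤ := 2 * ∑ a, D.e a + n * D.ε

/-- `(n - r + 1) deg (det M)`, which is `2 (a(R) + ∑ w i)` -/
def top2 : ℤ := (n - r + 1) * D.deg

/-- the automorphism `xᵢ ↦ α i g • xᵢ` of the polynomial ring -/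
noncomputable def act (g : G) : MvPolynomial (Fin N) k →ₐ[k] MvPolynomial (Fin N) k :=
  Pool.Agent.TH144.NV.act fun i => (D.α i g : k)

/-- the class of `a` in `R` is a `G`-invariant form of degree `m` -/
def Inv (m : ℕ) (a : MvPolynomial (Fin N) k) : Prop :=
  IsWeightedHomogeneous D.w a m ∧
    ∀ g, Ideal.Quotient.mk (D.I r) (D.act g a) = Ideal.Quotient.mk (D.I r) a

/-- the space `(R_m)^G` of the classes of these forms -/
noncomputable def sections (m : ℕ) : Submodule k (MvPolynomial (Fin N) k ⧸ D.I r) where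
  carrier := {q | ∃ a, D.Inv r m a ∧ Ideal.Quotient.mk (D.I r) a = q}
  add_mem' := by
    rintro _ _ ⟨a, ha, rfl⟩ ⟨b, hb, rfl⟩
    refine ⟨a + b, ⟨ha.1.add hb.1, fun g => ?_⟩, map_add _ _ _⟩
    rw [map_add, map_add, map_add, ha.2, hb.2]
  zero_mem' := ⟨0, ⟨isWeightedHomogeneous_zero _ _ _, fun g => by rw [map_zero]⟩, map_zero _⟩
  smul_mem' := by
    rintro c _ ⟨a, ha, rfl⟩
    refine ⟨c • a, ⟨?_, fun g => ?_⟩, ?_⟩
    · exact (mem_weightedHomogeneousSubmodule k D.w m _).1
        (Submodule.smul_mem _ c ((mem_weightedHomogeneousSubmodule k D.w m _).2 ha.1))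
    · rw [map_smul]
      have h1 := ha.2 g
      rw [Ideal.Quotient.eq] at h1 ⊢
      rw [← smul_sub, smul_eq_C_mul]
      exact Ideal.mul_mem_left _ _ h1
    · exact map_smul (Ideal.Quotient.mkₐ k (D.I r)) c a

/-- At every point of `Proj R` invariant forms of some consecutive degrees `hm`, `h(m+1)` do not
vanish. This holds if `⨁ₘ (R_{hm})^G` is the section ring of an ample invertible sheaf. -/
def SectionRing (h : ℕ) : Prop :=
  ∀ p ∈ D.Cone r, p ≠ 0 → ∃ (m : ℕ) (a b : MvPolynomial (Fin N) k),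
    D.Inv r (h * m) a ∧ D.Inv r (h * (m + 1)) b ∧ eval p a ≠ 0 ∧ eval p b ≠ 0

variable {r}

theorem eval_mem {p : Fin N → k} (hp : p ∈ D.Cone r) {a : MvPolynomial (Fin N) k}
    (ha : a ∈ D.I r) : eval p a = 0 := by
  have h1 : D.I r ≤ RingHom.ker (eval p) := by
    rw [I, Ideal.span_le]
    rintro _ ⟨j, rfl⟩
    exact (RingHom.mem_ker).2 (hp j)
  exact (RingHom.mem_ker).1 (h1 ha)

theorem eval_inv {p : Fin N → k} (hp : p ∈ D.Cone r) {m : ℕ} {a : MvPolynomial (Fin N) k}
    (ha : D.Inv r m a) (g : G) : eval (fun i => (D.α i g : k) * p i) a = eval p a := by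
  rw [← eval_act]
  have h1 := ha.2 g
  rw [Ideal.Quotient.eq] at h1
  have h2 := D.eval_mem hp h1
  rw [map_sub, sub_eq_zero] at h2
  exact h2

/-- eigenvalues of fixed lines are `h`-th roots of unity -/
theorem pow_eq_one {h : ℕ} (hS : D.SectionRing r h) {p : Fin N → k} (hp : p ∈ D.Cone r)
    (hp0 : p ≠ 0) (g : G) (μ : kˣ) (hfix : ∀ i, (D.α i g : k) * p i = (μ : k) ^ D.w i * p i) :
    μ ^ h = 1 := by
  obtain ⟨m, a, b, ha, hb, ha0, hb0⟩ := hS p hp hp0
  have key : ∀ {m : ℕ} {a : MvPolynomial (Fin N) k}, D.Inv r m a → eval p a ≠ 0 →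
      (μ : k) ^ m = 1 := by
    intro m a ha ha0
    have h1 := D.eval_inv hp ha g
    rw [show (fun i => (D.α i g : k) * p i) = fun i => (μ : k) ^ D.w i * p i from funext hfix,
      eval_wscale ha.1] at h1
    exact mul_right_cancel₀ ha0 (by rw [h1, one_mul])
  have h1 := key ha ha0
  have h2 := key hb hb0
  rw [mul_add, pow_add, h1, one_mul, mul_one] at h2
  ext
  simpa using h2

theorem exists_degree (a b : Fin n) : ∃ m : ℕ, 0 < m ∧ (m : ℤ) = D.e a + D.e b + D.ε
    ∧ IsWeightedHomogeneous D.w (D.M a b) m := by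
  obtain ⟨m, hm⟩ := Int.eq_ofNat_of_zero_le (D.pos a b).le
  have := D.pos a b
  exact ⟨m, by omega, hm.symm, D.homogeneous a b m hm.symm⟩

/-- nonvanishing entries have matching characters -/
theorem eval_entry {T : Finset (Fin N)} {g : G} {μ : kˣ} (hT : ∀ i, i ∈ T → D.α i g = μ ^ D.w i)
    {a b : Fin n}
    (hne : ∀ m : ℕ, 0 < m → (m : ℤ) = D.e a + D.e b + D.ε → D.χ a g * D.χ b g * D.ψ g ≠ μ ^ m)
    {p : Fin N → k} (hp : ∀ i, i ∉ T → p i = 0) : eval p (D.M a b) = 0 := by
  obtain ⟨m, hm0, hm', hhom⟩ := D.exists_degree a b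
  refine eval_eq_zero_of_ne hhom (fun i => (D.α i g : k))
    ((D.χ a g * D.χ b g * D.ψ g : kˣ) : k) (D.semi g a b) (μ : k) ?_ ?_
  · intro i
    by_cases hi : i ∈ T
    · rw [hT i hi, Units.val_pow_eq_pow_val]
    · rw [hp i hi, mul_zero, mul_zero]
  · intro h1
    apply hne m hm0 hm'
    ext
    rw [h1, Units.val_pow_eq_pow_val]

/-- the scalars attached to the indices -/
noncomputable def zz (g : G) (μ : kˣ) (a : Fin n) : kˣ := D.χ a g * μ ^ (- D.e a)

/-- the scalar attached to the edges -/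
noncomputable def tt (g : G) (μ : kˣ) : kˣ := (D.ψ g)⁻¹ * μ ^ D.ε

theorem zz_iff (g : G) (μ : kˣ) (a b : Fin n) (m : ℕ) (hm : (m : ℤ) = D.e a + D.e b + D.ε) :
    D.zz g μ a * D.zz g μ b = D.tt g μ ↔ D.χ a g * D.χ b g * D.ψ g = μ ^ m := by
  have e1 : D.zz g μ a * D.zz g μ b = D.χ a g * D.χ b g * (μ ^ (D.e a + D.e b))⁻¹ := by
    simp only [zz]
    rw [zpow_add, zpow_neg, zpow_neg, mul_inv]
    exact mul_mul_mul_comm _ _ _ _
  have e2 : μ ^ m = μ ^ (D.e a + D.e b) * μ ^ D.ε := by
    rw [← zpow_add, ← hm, zpow_natCast]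
  rw [e1, e2, tt]
  constructor
  · intro h1
    have h2 : D.χ a g * D.χ b g = (D.ψ g)⁻¹ * μ ^ D.ε * μ ^ (D.e a + D.e b) := by
      rw [← h1, inv_mul_cancel_right]
    rw [h2, mul_comm (_ * _ * _) (D.ψ g), ← mul_assoc, ← mul_assoc, mul_inv_cancel, one_mul,
      mul_comm]
  · intro h1
    have h2 : D.χ a g * D.χ b g = μ ^ (D.e a + D.e b) * μ ^ D.ε * (D.ψ g)⁻¹ := by
      rw [← h1, mul_inv_cancel_right]
    rw [h2, mul_comm, ← mul_assoc, ← mul_assoc, inv_mul_cancel, one_mul, mul_comm]

theorem mem_ordS {n : ℕ} {z : Fin n → kˣ} {τ : kˣ} {x : Fin n × Fin n} :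
    x ∈ ordS z τ ↔ z x.1 * z x.2 = τ := by
  classical
  simp [ordS]

/-- the fixed coordinates and the edges of the graph -/
theorem fixed (hDim : S_Dim) (hGen : S_GenS) (hMat : S_MatS) [IsAlgClosed k] [CharZero k]
    (hr0 : 1 ≤ r) (hr : r < n) {h : ℕ} (hS : D.SectionRing r h) (g : G) (μ : kˣ)
    (hμ : μ ^ h ≠ 1) (T : Finset (Fin N)) (hT : ∀ i, i ∈ T → D.α i g = μ ^ D.w i) :
    2 * n * T.card ≤ (n - r + 1) * (ordS (D.zz g μ) (D.tt g μ)).card := by
  refine hMat k n r T.card _ _ hr0 hr.le ?_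
  intro U hU hUr
  refine countS hDim hGen D.w_pos D.pos D.M D.symm D.homogeneous T _ _ ?_ ?_ U hU hUr
  · intro a b hab x hx
    exact D.eval_entry hT (fun m _ hm h1 => hab ((D.zz_iff g μ a b m hm).2 h1)) hx
  · intro x hx hmin
    by_contra hx0
    refine hμ (D.pow_eq_one hS (p := x) ?_ hx0 g μ (fun i => ?_))
    · intro y
      unfold minor
      rw [RingHom.map_det]
      exact hmin y.1 y.2
    by_cases hi : i ∈ T
    · rw [hT i hi, Units.val_pow_eq_pow_val]
    · rw [hx i hi, mul_zero, mul_zero]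

open Classical in
/-- the weights which take no part in level `h` -/
theorem not_good_le (hDim : S_Dim) (hGen : S_GenS) (hMat : S_MatS) [IsAlgClosed k] [CharZero k]
    [Finite G] (hr0 : 1 ≤ r) (hr : r < n) {h : ℕ} (hS : D.SectionRing r h) :
    2 * ∑ i ∈ univ.filter (fun i => ¬ Good h (D.w i) (D.α i)), (D.w i : ℤ) ≤ D.top2 r := by
  choose d hd0 hd hhom using D.exists_degree
  have main := main_ineq (k := k) (G := G) (fun x : Fin (2 * n) × Fin N => D.w x.2)
    (fun x => D.w_pos x.2) (fun x : Fin (n - r + 1) × (Fin n × Fin n) => d x.2.1 x.2.2)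
    (fun x => hd0 _ _) (fun x => D.α x.2) (fun x => D.χ x.2.1 * D.χ x.2.2 * D.ψ) h (by
    intro g μ hμ
    have h1 := D.fixed hDim hGen hMat hr0 hr hS g μ hμ (univ.filter fun i => D.α i g = μ ^ D.w i)
      (fun i hi => (Finset.mem_filter.1 hi).2)
    have e1 : (univ.filter fun x : Fin (2 * n) × Fin N => D.α x.2 g = μ ^ D.w x.2).card
        = 2 * n * (univ.filter fun i => D.α i g = μ ^ D.w i).card := by
      have : (univ.filter fun x : Fin (2 * n) × Fin N => D.α x.2 g = μ ^ D.w x.2)
          = (univ : Finset (Fin (2 * n))) ×ˢ (univ.filter fun i => D.α i g = μ ^ D.w i) := by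
        ext x
        simp
      rw [this, Finset.card_product, Finset.card_univ, Fintype.card_fin]
    have e2 : (univ.filter fun x : Fin (n - r + 1) × (Fin n × Fin n) =>
        (D.χ x.2.1 * D.χ x.2.2 * D.ψ) g = μ ^ d x.2.1 x.2.2).card
        = (n - r + 1) * (ordS (D.zz g μ) (D.tt g μ)).card := by
      have : (univ.filter fun x : Fin (n - r + 1) × (Fin n × Fin n) =>
          (D.χ x.2.1 * D.χ x.2.2 * D.ψ) g = μ ^ d x.2.1 x.2.2)
          = (univ : Finset (Fin (n - r + 1))) ×ˢ ordS (D.zz g μ) (D.tt g μ) := by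
        ext x
        rw [Finset.mem_filter, Finset.mem_product, mem_ordS,
          D.zz_iff g μ x.2.1 x.2.2 (d _ _) (hd _ _)]
        simp only [mem_univ, true_and, MonoidHom.mul_apply]
      rw [this, Finset.card_product, Finset.card_univ, Fintype.card_fin]
    rw [e1, e2]
    exact h1)
  have h1 : ∑ x ∈ univ.filter (fun x : Fin (2 * n) × Fin N => ¬ Good h (D.w x.2) (D.α x.2)), D.w x.2
      = 2 * n * ∑ i ∈ univ.filter (fun i => ¬ Good h (D.w i) (D.α i)), D.w i := by
    have : (univ.filter fun x : Fin (2 * n) × Fin N => ¬ Good h (D.w x.2) (D.α x.2))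
        = (univ : Finset (Fin (2 * n))) ×ˢ univ.filter (fun i => ¬ Good h (D.w i) (D.α i)) := by
      ext x
      simp
    rw [this, Finset.sum_product]
    simp
  have h2 : ∑ x ∈ univ.filter (fun x : Fin (n - r + 1) × (Fin n × Fin n) =>
      ¬ Good h (d x.2.1 x.2.2) (D.χ x.2.1 * D.χ x.2.2 * D.ψ)), d x.2.1 x.2.2
      ≤ ∑ x : Fin (n - r + 1) × (Fin n × Fin n), d x.2.1 x.2.2 :=
    Finset.sum_le_sum_of_subset (Finset.filter_subset _ _)
  have h3 : ((∑ x : Fin (n - r + 1) × (Fin n × Fin n), d x.2.1 x.2.2 : ℕ) : ℤ)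
      = (n : ℤ) * D.top2 r := by
    rw [Fintype.sum_prod_type]
    simp only [Finset.sum_const, Finset.card_univ, Fintype.card_fin, smul_eq_mul]
    rw [Fintype.sum_prod_type]
    push_cast [Nat.cast_sub hr.le]
    simp only [hd, Finset.sum_add_distrib, Finset.sum_const, Finset.card_univ, Fintype.card_fin]
    unfold top2 deg
    simp only [nsmul_eq_mul, ← Finset.mul_sum]
    ring
  have h4 : 2 * n * ∑ i ∈ univ.filter (fun i => ¬ Good h (D.w i) (D.α i)), D.w i
      ≤ ∑ x : Fin (n - r + 1) × (Fin n × Fin n), d x.2.1 x.2.2 := by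
    rw [← h1]
    exact le_trans (by convert main) h2
  have h5 : (n : ℤ) * (2 * ∑ i ∈ univ.filter (fun i => ¬ Good h (D.w i) (D.α i)), (D.w i : ℤ))
      ≤ n * D.top2 r := by
    rw [← h3, ← mul_assoc, mul_comm (n : ℤ) 2]
    exact_mod_cast h4
  exact le_of_mul_le_mul_left h5 (by omega)

/-- the ideal contains no forms of degree one -/
theorem eq_zero_of_mem (hr0 : 1 ≤ r) {u : MvPolynomial (Fin N) k}
    (hu : IsWeightedHomogeneous D.w u 1) (hI : u ∈ D.I r) : u = 0 := by
  have h1 : ∀ x, (Polynomial.X : Polynomial (MvPolynomial (Fin N) k)) ^ 2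
      ∣ φ D.w (D.minor r x) := by
    intro x
    have h2 : ∀ a b, (Polynomial.X : Polynomial (MvPolynomial (Fin N) k)) ∣ φ D.w (D.M a b) := by
      intro a b
      obtain ⟨m, hm, _, hom⟩ := D.exists_degree a b
      rw [φ_hom hom]
      exact Dvd.dvd.mul_left (dvd_pow_self _ hm.ne') _
    choose Q hQ using h2
    have h3 : (φ D.w).toRingHom.mapMatrix (D.M.submatrix x.1 x.2) =
        (Polynomial.X : Polynomial (MvPolynomial (Fin N) k)) •
          (Matrix.of fun i j => Q (x.1 i) (x.2 j)) := by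
      ext1 a b
      simp only [RingHom.mapMatrix_apply, Matrix.map_apply, Matrix.smul_apply, Matrix.of_apply,
        smul_eq_mul, Matrix.submatrix_apply]
      exact hQ _ _
    have h4 : φ D.w (D.minor r x) = Polynomial.X ^ (r + 1) *
        (Matrix.of fun i j => Q (x.1 i) (x.2 j)).det := by
      have h5 : φ D.w (D.minor r x)
          = ((φ D.w).toRingHom.mapMatrix (D.M.submatrix x.1 x.2)).det := by
        rw [← RingHom.map_det]; rfl
      rw [h5, h3, Matrix.det_smul, Fintype.card_fin]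
    rw [h4]
    exact Dvd.dvd.mul_right (pow_dvd_pow _ (by omega)) _
  have h2 : (Polynomial.X : Polynomial (MvPolynomial (Fin N) k)) ^ 2 ∣ φ D.w u := by
    have h3 : Ideal.span (Set.range (D.minor r)) ≤
        Ideal.comap (φ D.w).toRingHom (Ideal.span {Polynomial.X ^ 2}) := by
      rw [Ideal.span_le]
      rintro _ ⟨x, rfl⟩
      rw [SetLike.mem_coe, Ideal.mem_comap, Ideal.mem_span_singleton]
      exact h1 x
    have h4 := h3 hI
    rw [Ideal.mem_comap, Ideal.mem_span_singleton] at h4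
    exact h4
  rw [φ_hom hu, pow_one, Polynomial.X_pow_dvd_iff] at h2
  have h3 := h2 1 (by norm_num)
  simpa using h3

variable (r) in
theorem finite_sections_one : FiniteDimensional k (D.sections r 1) := by
  let π : MvPolynomial (Fin N) k →ₗ[k] (MvPolynomial (Fin N) k ⧸ D.I r) :=
    (Ideal.Quotient.mkₐ k (D.I r)).toLinearMap
  have h1 : FiniteDimensional k
      (Submodule.span k (Set.range (X : Fin N → MvPolynomial (Fin N) k))) :=
    FiniteDimensional.span_of_finite k (Set.finite_range _)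
  have h3 : D.sections r 1 ≤ Submodule.map π
      (Submodule.span k (Set.range (X : Fin N → MvPolynomial (Fin N) k))) := by
    rintro _ ⟨a, ha, rfl⟩
    exact ⟨a, mem_span_X D.w_pos ha.1, rfl⟩
  exact Submodule.finiteDimensional_of_le h3

/-- variables of degree one are linearly independent in `R` -/
theorem card_le_finrank (hr0 : 1 ≤ r) (T : Finset (Fin N))
    (hInv : ∀ i ∈ T, D.Inv r 1 (X i)) : T.card ≤ Module.finrank k (D.sections r 1) := by
  classical
  have hfin := D.finite_sections_one r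
  have hmem : ∀ c : {i // i ∈ T} → k,
      Ideal.Quotient.mk (D.I r) (∑ i, c i • (X i.1 : MvPolynomial (Fin N) k))
        ∈ D.sections r 1 := by
    intro c
    rw [map_sum]
    refine Submodule.sum_mem _ (fun i _ => ?_)
    have h1 : Ideal.Quotient.mk (D.I r) (c i • (X i.1 : MvPolynomial (Fin N) k))
        = c i • Ideal.Quotient.mk (D.I r) (X i.1) := map_smul (Ideal.Quotient.mkₐ k (D.I r)) _ _
    rw [h1]
    exact Submodule.smul_mem _ _ ⟨X i.1, hInv i.1 i.2, rfl⟩
  let F : ({i // i ∈ T} → k) →ₗ[k] D.sections r 1 :=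
    { toFun := fun c => ⟨Ideal.Quotient.mk (D.I r) (∑ i, c i • (X i.1 : MvPolynomial (Fin N) k)),
        hmem c⟩
      map_add' := by
        intro c d
        apply Subtype.ext
        simp only [Pi.add_apply, add_smul, Finset.sum_add_distrib, map_add]
        rfl
      map_smul' := by
        intro r' c
        apply Subtype.ext
        simp only [Pi.smul_apply, smul_eq_mul, mul_smul, ← Finset.smul_sum, RingHom.id_apply]
        exact map_smul (Ideal.Quotient.mkₐ k (D.I r)) _ _ }
  have hF : Function.Injective F := by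
    rw [injective_iff_map_eq_zero]
    intro c hc
    have h1 : Ideal.Quotient.mk (D.I r) (∑ i, c i • (X i.1 : MvPolynomial (Fin N) k)) = 0 :=
      congrArg Subtype.val hc
    rw [Ideal.Quotient.eq_zero_iff_mem] at h1
    have h2 : IsWeightedHomogeneous D.w (∑ i, c i • (X i.1 : MvPolynomial (Fin N) k)) 1 := by
      rw [← mem_weightedHomogeneousSubmodule]
      refine Submodule.sum_mem _ (fun i _ => Submodule.smul_mem _ _ ?_)
      rw [mem_weightedHomogeneousSubmodule]
      exact (hInv i.1 i.2).1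
    have h3 := D.eq_zero_of_mem hr0 h2 h1
    have h4 : LinearIndependent k (fun i : {i // i ∈ T} => (X i.1 : MvPolynomial (Fin N) k)) :=
      (linearIndependent_X (Fin N) k).comp _ Subtype.val_injective
    funext i
    exact (Fintype.linearIndependent_iff.1 h4) c h3 i
  have h5 := LinearMap.finrank_le_finrank_of_injective hF
  simpa [Module.finrank_fintype_fun_eq_card, Fintype.card_coe] using h5

end Datum

open Classical in
theorem main_of (hDim : S_Dim) (hGen : S_GenS) (hMat : S_MatS) [IsAlgClosed k] [CharZero k]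
    [Finite G] (D : Datum k G N n) {r h : ℕ} (hr0 : 1 ≤ r) (hr : r < n) (hh : 0 < h)
    -- no variable vanishes on the cone
    (hfull : ∀ i, ∃ p ∈ D.Cone r, p i ≠ 0)
    -- the ring of the `(R_{hm})^G` is a section ring
    (hS : D.SectionRing r h) :
    (∃ T : Finset (Fin N), 2 * ∑ i, (D.w i : ℤ) ≤ D.top2 r + 2 * ∑ i ∈ T, (D.w i : ℤ) ∧
      ∀ i ∈ T, D.w i ∣ h ∧ D.Inv r h (X i ^ (h / D.w i)) ∧
        ¬ IsNilpotent (Ideal.Quotient.mk (D.I r) (X i ^ (h / D.w i)))) ∧
    (D.top2 r < 2 * ∑ i, (D.w i : ℤ) → ∃ s ∈ D.sections r h, ¬ IsNilpotent s) ∧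
    (h = 1 → 2 * ∑ i, (D.w i : ℤ) - D.top2 r ≤ 2 * Module.finrank k (D.sections r 1)) := by
  have hmain := D.not_good_le hDim hGen hMat hr0 hr hS
  set T : Finset (Fin N) := univ.filter fun i => Good h (D.w i) (D.α i) with hT
  have hsum : 2 * ∑ i, (D.w i : ℤ) ≤ D.top2 r + 2 * ∑ i ∈ T, (D.w i : ℤ) := by
    have h1 := Finset.sum_filter_add_sum_filter_not (univ : Finset (Fin N))
      (fun i => Good h (D.w i) (D.α i)) (fun i => (D.w i : ℤ))
    rw [← hT] at h1
    linarith
  have hprop : ∀ i ∈ T, D.w i ∣ h ∧ D.Inv r h (X i ^ (h / D.w i)) ∧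
        ¬ IsNilpotent (Ideal.Quotient.mk (D.I r) (X i ^ (h / D.w i))) := by
    intro i hi
    obtain ⟨hdvd, hα⟩ := ((Finset.mem_filter.1 hi).2).dvd (D.w_pos i)
    have hne : h / D.w i ≠ 0 := by
      intro h0
      have := Nat.div_mul_cancel hdvd
      rw [h0, zero_mul] at this
      omega
    refine ⟨hdvd, ⟨?_, ?_⟩, ?_⟩
    · have h1 := (isWeightedHomogeneous_X k D.w i).pow (h / D.w i)
      rwa [smul_eq_mul, Nat.div_mul_cancel hdvd] at h1
    · intro g
      have h1 : D.act g (X i ^ (h / D.w i)) = X i ^ (h / D.w i) := by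
        rw [map_pow]
        show (Pool.Agent.TH144.NV.act (fun i => (D.α i g : k)) (X i)) ^ _ = _
        unfold Pool.Agent.TH144.NV.act
        rw [aeval_X, mul_pow, ← C_pow, ← Units.val_pow_eq_pow_val, hα g, Units.val_one, C_1,
          one_mul]
      rw [h1]
    · rintro ⟨m, hm⟩
      obtain ⟨p, hp, hpi⟩ := hfull i
      rw [← map_pow, Ideal.Quotient.eq_zero_iff_mem] at hm
      have := D.eval_mem hp hm
      rw [map_pow, map_pow, eval_X] at this
      exact hpi (eq_zero_of_pow_eq_zero (eq_zero_of_pow_eq_zero this))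
  refine ⟨⟨T, hsum, hprop⟩, ?_, ?_⟩
  · intro hlt
    have hne : T.Nonempty := by
      rw [Finset.nonempty_iff_ne_empty]
      intro h0
      rw [h0, Finset.sum_empty] at hsum
      omega
    obtain ⟨i, hi⟩ := hne
    exact ⟨_, ⟨_, (hprop i hi).2.1, rfl⟩, (hprop i hi).2.2⟩
  · rintro rfl
    have hw1 : ∀ i ∈ T, D.w i = 1 := fun i hi => Nat.dvd_one.1 (hprop i hi).1
    have h1 := D.card_le_finrank hr0 T (fun i hi => by
      have h2 := (hprop i hi).2.1
      rw [hw1 i hi] at h2
      simpa using h2)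
    have h2 : ∑ i ∈ T, (D.w i : ℤ) = T.card := by
      rw [Finset.sum_congr rfl (fun i hi => by rw [hw1 i hi, Nat.cast_one])]
      simp
    rw [h2] at hsum
    have h3 : (T.card : ℤ) ≤ Module.finrank k (D.sections r 1) := by exact_mod_cast h1
    linarith

open Classical in
theorem result [IsAlgClosed k] [CharZero k] [Finite G] (D : Datum k G N n) {r h : ℕ}
    (hr0 : 1 ≤ r) (hr : r < n) (hh : 0 < h)
    -- no variable vanishes on the cone
    (hfull : ∀ i, ∃ p ∈ D.Cone r, p i ≠ 0)
    -- the ring of the `(R_{hm})^G` is a section ring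
    (hS : D.SectionRing r h) :
    (∃ T : Finset (Fin N), 2 * ∑ i, (D.w i : ℤ) ≤ D.top2 r + 2 * ∑ i ∈ T, (D.w i : ℤ) ∧
      ∀ i ∈ T, D.w i ∣ h ∧ D.Inv r h (X i ^ (h / D.w i)) ∧
        ¬ IsNilpotent (Ideal.Quotient.mk (D.I r) (X i ^ (h / D.w i)))) ∧
    (D.top2 r < 2 * ∑ i, (D.w i : ℤ) → ∃ s ∈ D.sections r h, ¬ IsNilpotent s) ∧
    (h = 1 → 2 * ∑ i, (D.w i : ℤ) - D.top2 r ≤ 2 * Module.finrank k (D.sections r 1)) :=
  main_of Pool.Agent.Q38.PX.dim Pool.Agent.Q49.PX.genS Pool.Agent.Q49.PX.matS D hr0 hr hh hfull hS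

end Pool.Agent.Results.MP_954e53_ag.SymmetricFormats
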