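import Pool.Agent.Q2.TF.Pt
import Pool.Agent.Q2.TF.Rat
import Pool.Agent.Q2.TF.Ex4
import Pool.Agent.Q38.PX.Dim
import Pool.Agent.Y374.PF.Zero
import Pool.Agent.Y374.PF.Degree

/-!
# Section rings from toric formats: sections of the generating sheaf

`V = Spec k[σ^∨ ∩ ℤ^r]` is an arbitrary Gorenstein (`ν = 1`) or `ℚ`-Gorenstein affine toric variety
without torus factors: the cone `σ` is generated by points `P j` which span `ℝ^r` and lie in the
hyperplane `c = ν`. Let `R = k[x₁, …, x_N]/I`, where `I` is generated by the equations of `V` in the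
minimal generators `u l` of `σ^∨ ∩ ℤ^r`, evaluated at homogeneous polynomials `f l`, and by further
polynomials `g j`. Let a finite group `G` act diagonally and `S = ⨁ₘ (R_{hm})^G`. If `S` is a section
ring and `∑ w i > ∑ deg (f l) + ∑ deg (g j) - λ(c)/ν`, i.e. `a(R) < 0`, then `S₁ ≠ 0`; if `h = 1`,
then `dim S₁ ≥ -a(R)`.

Idea of the proof. Let `T` be the set of the coordinates `xᵢ` which are fixed by an element of
`G × μ_∞` whose character on `S₁` is not trivial. This element gives a character `z` of `ℤ^r`; the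
`f l` with `z(u l) ≠ 1` vanish on the span of `T`. For each face `F` of `σ^∨` on which `z` is trivial
`|T| ≤ #{l : z(u l) = 1} - dim F` (dimension count). Let `Q` be the polytope of the `P j`. For a
simplex of a (regular) triangulation of `Q` the character `z` has several lifts `ζ` to the lattice
dual to the vertices, and `ζ` gives the face spanned by the boundary facets `i` of the simplex with
`ζ i = 1`. The average over the lifts and over the simplices, weighted by the volume, gives
`|T| ≤ #{l : z(u l) = 1} - ∑ q l`, the sum over the rays `u l` of `σ^∨` with `z(u l) = 1`, where `q l`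
is the lattice volume of the facet of `Q` divided by the lattice volume of `Q`; and
`∑ q l u l = c/ν`, since the interior facets cancel. This is averaged over the group against
`1 - Re μ ^ h`.
-/

set_option autoImplicit false

namespace Pool.Agent.Results.MP_954e53_ag.ToricFormats

open MvPolynomial Finset Pool.Agent.TH144.NV Pool.Agent.Y374.PF Pool.Agent.Q2.TF
open scoped Matrix

/-- A Gorenstein (`ν = 1`) or `ℚ`-Gorenstein affine toric variety: the vectors `P j` span the space
`ℝ^r` and lie in the hyperplane `c = ν`; the vectors `u l` are the minimal generators of the monoid of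
the integral linear forms which are nonnegative on all `P j`. -/
structure Format (s r : ℕ) where
  n : ℕ
  P : Fin n → Fin r → ℤ
  spanning : ∃ f : Fin r → Fin n, (Matrix.of fun i => P (f i)).det ≠ 0
  c : Fin r → ℤ
  ν : ℕ
  ν_pos : 0 < ν
  height : ∀ j, c ⬝ᵥ P j = ν
  u : Fin s → Fin r → ℤ
  generate : ∀ v : Fin r → ℤ, (∀ j, 0 ≤ v ⬝ᵥ P j) ↔ ∃ a : Fin s → ℕ, v = ∑ l, a l • u l
  irreducible : ∀ l (a : Fin s → ℕ), ∑ j, a j • u j = u l → a = Pi.single l 1

/-- Polynomials in the toric format `F` over a polynomial ring with positive weights and a diagonal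
action of `G`. `w i`: weights of the variables; `f l` is homogeneous of degree `u l ⬝ᵥ lam > 0` and
`G` acts on it by `∏ⱼ (χ j) ^ (u l j)`, and on the variables by the characters `α i`; `g j`: further
polynomials, of degree `δ j ≥ 2` and with the characters `ψ j`. -/
structure Datum (k : Type) [Field k] (G : Type) [Group G] {s r : ℕ} (F : Format s r)
    (N p : ℕ) where
  w : Fin N → ℕ
  w_pos : ∀ i, 0 < w i
  lam : Fin r → ℤ
  deg_pos : ∀ l, 0 < F.u l ⬝ᵥ lam
  f : Fin s → MvPolynomial (Fin N) k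
  f_hom : ∀ l (m : ℕ), (m : ℤ) = F.u l ⬝ᵥ lam → IsWeightedHomogeneous w (f l) m
  δ : Fin p → ℕ
  two_le : ∀ j, 2 ≤ δ j
  g : Fin p → MvPolynomial (Fin N) k
  g_hom : ∀ j, IsWeightedHomogeneous w (g j) (δ j)
  α : Fin N → G →* kˣ
  χ : Fin r → G →* kˣ
  f_semi : ∀ γ l, act (fun i => (α i γ : k)) (f l) = C ((∏ j, χ j γ ^ F.u l j : kˣ) : k) * f l
  ψ : Fin p → G →* kˣ
  g_semi : ∀ γ j, act (fun i => (α i γ : k)) (g j) = C ((ψ j γ : kˣ) : k) * g j

variable {k : Type} [Field k] {G : Type} [Group G] {N s p r : ℕ} {F : Format s r}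

namespace Datum

variable (D : Datum k G F N p)

/-- the equations of the toric variety in the polynomials `f l`, and the polynomials `g j` -/
noncomputable def gens : Set (MvPolynomial (Fin N) k) :=
  {x | ∃ a b : Fin s → ℕ, ∑ l, a l • F.u l = ∑ l, b l • F.u l ∧
    x = ∏ l, D.f l ^ a l - ∏ l, D.f l ^ b l} ∪ Set.range D.g

/-- the ideal of the ring `R` -/
noncomputable def I : Ideal (MvPolynomial (Fin N) k) := Ideal.span D.gens

/-- the cone over `Proj R` -/
def Cone : Set (Fin N → k) := {x | ∀ a ∈ D.gens, eval x a = 0}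

/-- `ν (∑ deg (f l) + ∑ deg (g j)) - λ(c)`, which is `ν (a(R) + ∑ w i)` -/
def top : ℤ := F.ν * (∑ l, F.u l ⬝ᵥ D.lam + ∑ j, (D.δ j : ℤ)) - F.c ⬝ᵥ D.lam

/-- the automorphism `xᵢ ↦ α i g • xᵢ` of the polynomial ring -/
noncomputable def act (g : G) : MvPolynomial (Fin N) k →ₐ[k] MvPolynomial (Fin N) k :=
  Pool.Agent.TH144.NV.act fun i => (D.α i g : k)

/-- the class of `a` in `R` is a `G`-invariant form of degree `m` -/
def Inv (m : ℕ) (a : MvPolynomial (Fin N) k) : Prop :=
  IsWeightedHomogeneous D.w a m ∧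
    ∀ g, Ideal.Quotient.mk D.I (D.act g a) = Ideal.Quotient.mk D.I a

/-- the space `(R_m)^G` of the classes of these forms -/
noncomputable def sections (m : ℕ) : Submodule k (MvPolynomial (Fin N) k ⧸ D.I) where
  carrier := {q | ∃ a, D.Inv m a ∧ Ideal.Quotient.mk D.I a = q}
  add_mem' := by
    rintro _ _ ⟨a, ha, rfl⟩ ⟨b, hb, rfl⟩
    refine ⟨a + b, ⟨ha.1.add hb.1, fun g => ?_⟩, map_add _ _ _⟩
    rw [map_add, map_add, map_add, ha.2, hb.2]
  zero_mem' := ⟨0, ⟨isWeightedHomogeneous_zero _ _ _, fun g => by rw [map_zero]⟩, map_zero _⟩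
  smul_mem' := by
    rintro c _ ⟨a, ha, rfl⟩
    refine ⟨c • a, ⟨?_, fun g => ?_⟩, ?_⟩
    · exact (mem_weightedHomogeneousSubmodule k D.w m _).1
        (Submodule.smul_mem _ c ((mem_weightedHomogeneousSubmodule k D.w m _).2 ha.1))
    · rw [map_smul]
      have h1 := ha.2 g
      rw [Ideal.Quotient.eq] at h1 ⊢
      rw [← smul_sub, smul_eq_C_mul]
      exact Ideal.mul_mem_left _ _ h1
    · exact map_smul (Ideal.Quotient.mkₐ k D.I) c a

/-- At every point of `Proj R` invariant forms of some consecutive degrees `hm`, `h(m+1)` do not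
vanish. This holds if `⨁ₘ (R_{hm})^G` is the section ring of an ample invertible sheaf. -/
def SectionRing (h : ℕ) : Prop :=
  ∀ x ∈ D.Cone, x ≠ 0 → ∃ (m : ℕ) (a b : MvPolynomial (Fin N) k),
    D.Inv (h * m) a ∧ D.Inv (h * (m + 1)) b ∧ eval x a ≠ 0 ∧ eval x b ≠ 0

theorem eval_mem {x : Fin N → k} (hx : x ∈ D.Cone) {a : MvPolynomial (Fin N) k}
    (ha : a ∈ D.I) : eval x a = 0 := by
  have h1 : D.I ≤ RingHom.ker (eval x) := by
    rw [I, Ideal.span_le]
    intro b hb
    exact (RingHom.mem_ker).2 (hx b hb)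
  exact (RingHom.mem_ker).1 (h1 ha)

theorem eval_inv {x : Fin N → k} (hx : x ∈ D.Cone) {m : ℕ} {a : MvPolynomial (Fin N) k}
    (ha : D.Inv m a) (g : G) : eval (fun i => (D.α i g : k) * x i) a = eval x a := by
  rw [← eval_act]
  have h1 := ha.2 g
  rw [Ideal.Quotient.eq] at h1
  have h2 := D.eval_mem hx h1
  rw [map_sub, sub_eq_zero] at h2
  exact h2

/-- eigenvalues of fixed lines are `h`-th roots of unity -/
theorem pow_eq_one {h : ℕ} (hS : D.SectionRing h) {x : Fin N → k} (hx : x ∈ D.Cone)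
    (hx0 : x ≠ 0) (g : G) (μ : kˣ) (hfix : ∀ i, (D.α i g : k) * x i = (μ : k) ^ D.w i * x i) :
    μ ^ h = 1 := by
  obtain ⟨m, a, b, ha, hb, ha0, hb0⟩ := hS x hx hx0
  have key : ∀ {m : ℕ} {a : MvPolynomial (Fin N) k}, D.Inv m a → eval x a ≠ 0 →
      (μ : k) ^ m = 1 := by
    intro m a ha ha0
    have h1 := D.eval_inv hx ha g
    rw [show (fun i => (D.α i g : k) * x i) = fun i => (μ : k) ^ D.w i * x i from funext hfix,
      eval_wscale ha.1] at h1
    exact mul_right_cancel₀ ha0 (by rw [h1, one_mul])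
  have h1 := key ha ha0
  have h2 := key hb hb0
  rw [mul_add, pow_add, h1, one_mul, mul_one] at h2
  ext
  simpa using h2

theorem exists_degree (l : Fin s) : ∃ m : ℕ, 0 < m ∧ (m : ℤ) = F.u l ⬝ᵥ D.lam
    ∧ IsWeightedHomogeneous D.w (D.f l) m := by
  obtain ⟨m, hm⟩ := Int.eq_ofNat_of_zero_le (D.deg_pos l).le
  have := D.deg_pos l
  exact ⟨m, by omega, hm.symm, D.f_hom l m hm.symm⟩

/-- the character of the lattice attached to an element of the group -/
noncomputable def zz (g : G) (μ : kˣ) (j : Fin r) : kˣ := D.χ j g * μ ^ (- D.lam j)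

theorem chr_zz (g : G) (μ : kˣ) (l : Fin s) (m : ℕ) (hm : (m : ℤ) = F.u l ⬝ᵥ D.lam) :
    chr (D.zz g μ) (F.u l) = 1 ↔ ∏ j, D.χ j g ^ F.u l j = μ ^ m := by
  have h1 : chr (D.zz g μ) (F.u l) = (∏ j, D.χ j g ^ F.u l j) * (μ ^ m)⁻¹ := by
    unfold chr zz
    simp only [mul_zpow, Finset.prod_mul_distrib]
    congr 1
    simp only [← zpow_mul]
    rw [prod_zpow_sum, ← zpow_natCast μ m, hm, ← zpow_neg]
    congr 1
    rw [dotProduct, ← Finset.sum_neg_distrib]
    exact Finset.sum_congr rfl fun j _ => by ring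
  rw [h1, mul_inv_eq_one]

open Classical in
/-- the weights which take no part in level `h` -/
theorem not_good_le [IsAlgClosed k] [CharZero k] [Finite G] {h : ℕ} (hS : D.SectionRing h) :
    F.ν * ∑ i ∈ univ.filter (fun i => ¬ Good h (D.w i) (D.α i)), (D.w i : ℤ) ≤ D.top := by
  obtain ⟨Tr⟩ := exists_bal F.ν_pos F.height F.spanning F.generate F.irreducible
  choose d hd0 hd hhom using D.exists_degree
  have hδ0 : ∀ j, 0 < D.δ j := fun j => lt_of_lt_of_le (by norm_num) (D.two_le j)
  -- the character of `f l`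
  let η : Fin s → G →* kˣ := fun l => ∏ j, (D.χ j) ^ (F.u l j)
  have hη : ∀ l g, η l g = ∏ j, D.χ j g ^ F.u l j := by
    intro l g
    show (∏ j, (D.χ j) ^ (F.u l j)) g = _
    rw [MonoidHom.finsetProd_apply]
    exact Finset.prod_congr rfl fun j _ => MonoidHom.zpow_apply _ _ _
  have main := main_ineq_rat (k := k) (G := G) D.w D.w_pos
    (Sum.elim d D.δ) (by rintro (l | j); exacts [hd0 l, hδ0 j])
    D.α (Sum.elim η D.ψ) h (Sum.elim (fun l => 1 - Tr.q l) (fun _ => 1))
    (by rintro (l | j); exacts [sub_nonneg.2 (Tr.q_le_one l), zero_le_one]) (by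
    intro g μ hμ
    set T := univ.filter fun i => D.α i g = μ ^ D.w i with hTdef
    set A := univ.filter fun l => η l g = μ ^ d l with hAdef
    set B := univ.filter fun j => D.ψ j g = μ ^ D.δ j with hBdef
    have hfix : ∀ x : Fin N → k, (∀ i, i ∉ T → x i = 0) →
        ∀ i, (D.α i g : k) * x i = (μ : k) ^ D.w i * x i := by
      intro x hx i
      by_cases hi : i ∈ T
      · rw [(Finset.mem_filter.1 hi).2, Units.val_pow_eq_pow_val]
      · rw [hx i hi, mul_zero, mul_zero]
    have h1 := pointwise (k := k) Pool.Agent.Q38.PX.dim D.w_pos Tr D.lam d hd hd0 D.δ hδ0 D.f D.g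
      hhom D.g_hom T (D.zz g μ) A (by
        intro l
        rw [hAdef, Finset.mem_filter, D.chr_zz g μ l (d l) (hd l), hη]
        simp) B (by
        intro l hl x hx
        refine eval_eq_zero_of_ne (hhom l) (fun i => (D.α i g : k)) _ (D.f_semi g l) (μ : k)
          (hfix x hx) ?_
        intro h2
        apply hl
        rw [hAdef, Finset.mem_filter, hη]
        refine ⟨mem_univ _, ?_⟩
        ext
        rw [h2, Units.val_pow_eq_pow_val]) (by
        intro j hj x hx
        refine eval_eq_zero_of_ne (D.g_hom j) (fun i => (D.α i g : k)) _ (D.g_semi g j) (μ : k)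
          (hfix x hx) ?_
        intro h2
        apply hj
        rw [hBdef, Finset.mem_filter]
        refine ⟨mem_univ _, ?_⟩
        ext
        rw [h2, Units.val_pow_eq_pow_val]) (by
        intro x hx hrel hg
        by_contra hx0
        refine hμ (D.pow_eq_one hS (x := x) ?_ hx0 g μ (hfix x hx))
        rintro a (⟨a', b', hab, rfl⟩ | ⟨j, rfl⟩)
        · rw [map_sub, map_prod, map_prod]
          simp only [map_pow]
          rw [hrel a' b' hab, sub_self]
        · exact hg j)
    have h2 : (univ.filter fun x : Fin s ⊕ Fin p => Sum.elim η D.ψ x g = μ ^ Sum.elim d D.δ x)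
        = A.disjSum B := by
      ext x
      rcases x with l | j
      · rw [Finset.inl_mem_disjSum, Finset.mem_filter, hAdef, Finset.mem_filter]
        simp
      · rw [Finset.inr_mem_disjSum, Finset.mem_filter, hBdef, Finset.mem_filter]
        simp
    rw [h2, Finset.sum_disjSum]
    simp only [Sum.elim_inl, Sum.elim_inr, Finset.sum_const, nsmul_eq_mul, mul_one]
    exact h1)
  rw [Fintype.sum_sum_type] at main
  simp only [Sum.elim_inl, Sum.elim_inr, sub_mul, one_mul, Finset.sum_sub_distrib] at main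
  have h1 : ∑ l, (d l : ℚ) = ((∑ l, F.u l ⬝ᵥ D.lam : ℤ) : ℚ) := by
    rw [Int.cast_sum]
    exact Finset.sum_congr rfl fun l _ => by rw [← hd l]; rfl
  have h2 : (F.ν : ℚ) * ∑ l, Tr.q l * (d l : ℚ) = ((F.c ⬝ᵥ D.lam : ℤ) : ℚ) := by
    rw [← Tr.sum_q_dot D.lam]
    congr 1
    exact Finset.sum_congr rfl fun l _ => by rw [← hd l]; rfl
  have h3 : (F.ν : ℚ) * ∑ i ∈ univ.filter (fun i => ¬ Good h (D.w i) (D.α i)), (D.w i : ℚ)
      ≤ ((D.top : ℤ) : ℚ) := by
    have hν' : (0 : ℚ) ≤ F.ν := Nat.cast_nonneg F.ν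
    have h4 := mul_le_mul_of_nonneg_left main hν'
    unfold top
    push_cast
    rw [h1] at h4
    push_cast at h4
    have h5 : (F.ν : ℚ) * (∑ l, ((F.u l ⬝ᵥ D.lam : ℤ) : ℚ) - ∑ l, Tr.q l * (d l : ℚ)
        + ∑ j, (D.δ j : ℚ)) = F.ν * (∑ l, ((F.u l ⬝ᵥ D.lam : ℤ) : ℚ) + ∑ j, (D.δ j : ℚ))
        - ((F.c ⬝ᵥ D.lam : ℤ) : ℚ) := by
      rw [← h2]
      ring
    rw [← h5]
    exact h4
  exact_mod_cast h3

/-- the ideal contains no forms of degree one -/
theorem eq_zero_of_mem {v : MvPolynomial (Fin N) k}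
    (hv : IsWeightedHomogeneous D.w v 1) (hI : v ∈ D.I) : v = 0 := by
  classical
  have hf : ∀ l, (Polynomial.X : Polynomial (MvPolynomial (Fin N) k)) ∣ φ D.w (D.f l) := by
    intro l
    obtain ⟨m, hm, _, hom⟩ := D.exists_degree l
    rw [φ_hom hom]
    exact Dvd.dvd.mul_left (dvd_pow_self _ hm.ne') _
  -- a product of powers is divisible by `X ^ 2` if there are two factors
  have hmon : ∀ a : Fin s → ℕ, 2 ≤ ∑ l, a l →
      (Polynomial.X : Polynomial (MvPolynomial (Fin N) k)) ^ 2 ∣ φ D.w (∏ l, D.f l ^ a l) := by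
    intro a ha
    rw [map_prod]
    refine (pow_dvd_pow _ ha).trans ?_
    rw [← Finset.prod_pow_eq_pow_sum]
    refine Finset.prod_dvd_prod_of_dvd _ _ fun l _ => ?_
    rw [map_pow]
    exact pow_dvd_pow_of_dvd (hf l) _
  have hrel : ∀ a b : Fin s → ℕ, ∑ l, a l • F.u l = ∑ l, b l • F.u l → a = b ∨ 2 ≤ ∑ l, a l := by
    intro a b hab
    by_cases h2 : 2 ≤ ∑ l, a l
    · exact Or.inr h2
    left
    rcases Nat.eq_zero_or_pos (∑ l, a l) with h0 | h0
    · have ha : ∀ l, a l = 0 := fun l => Finset.sum_eq_zero_iff.1 h0 l (mem_univ l)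
      have h3 := congrArg (fun x => x ⬝ᵥ D.lam) hab
      simp only [rel_dot, ha, Nat.cast_zero, zero_mul, Finset.sum_const_zero] at h3
      have h4 := (Finset.sum_eq_zero_iff_of_nonneg (fun l _ => mul_nonneg (Nat.cast_nonneg (b l))
        (D.deg_pos l).le)).1 h3.symm
      funext l
      rw [ha l]
      rcases mul_eq_zero.1 (h4 l (mem_univ l)) with h5 | h5
      · exact (by exact_mod_cast h5.symm)
      · exact absurd h5 (D.deg_pos l).ne'
    · have h1 : ∑ l, a l = 1 := by omega
      obtain ⟨l, hl⟩ : ∃ l, a l ≠ 0 := by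
        by_contra hcon
        push Not at hcon
        rw [Finset.sum_eq_zero fun l _ => hcon l] at h1
        omega
      have ha : a = Pi.single l 1 := by
        have h3 := Finset.add_sum_erase univ a (mem_univ l)
        have h4 : ∑ j ∈ univ.erase l, a j = 0 := by omega
        funext j
        by_cases hj : j = l
        · subst hj
          rw [Pi.single_eq_same]
          omega
        · rw [Pi.single_eq_of_ne hj]
          exact Finset.sum_eq_zero_iff.1 h4 j (Finset.mem_erase.2 ⟨hj, mem_univ j⟩)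
      have h5 : ∑ j, a j • F.u j = F.u l := by
        rw [ha, Finset.sum_eq_single l]
        · rw [Pi.single_eq_same, one_smul]
        · intro j _ hj
          rw [Pi.single_eq_of_ne hj, zero_smul]
        · intro h
          exact absurd (mem_univ l) h
      rw [ha]
      exact (F.irreducible l b (by rw [← hab, h5])).symm
  have h1 : ∀ x ∈ D.gens, (Polynomial.X : Polynomial (MvPolynomial (Fin N) k)) ^ 2
      ∣ φ D.w x := by
    rintro x (⟨a, b, hab, rfl⟩ | ⟨j, rfl⟩)
    · rcases hrel a b hab with rfl | h2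
      · rw [sub_self, map_zero]
        exact dvd_zero _
      · rcases hrel b a hab.symm with rfl | h3
        · rw [sub_self, map_zero]
          exact dvd_zero _
        · rw [map_sub]
          exact dvd_sub (hmon a h2) (hmon b h3)
    · rw [φ_hom (D.g_hom j)]
      exact Dvd.dvd.mul_left (pow_dvd_pow _ (D.two_le j)) _
  have h2 : (Polynomial.X : Polynomial (MvPolynomial (Fin N) k)) ^ 2 ∣ φ D.w v := by
    have h3 : Ideal.span D.gens ≤
        Ideal.comap (φ D.w).toRingHom (Ideal.span {Polynomial.X ^ 2}) := by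
      rw [Ideal.span_le]
      intro x hx
      rw [SetLike.mem_coe, Ideal.mem_comap, Ideal.mem_span_singleton]
      exact h1 x hx
    have h4 := h3 hI
    rw [Ideal.mem_comap, Ideal.mem_span_singleton] at h4
    exact h4
  rw [φ_hom hv, pow_one, Polynomial.X_pow_dvd_iff] at h2
  have h3 := h2 1 (by norm_num)
  simpa using h3

theorem finite_sections_one : FiniteDimensional k (D.sections 1) := by
  let π : MvPolynomial (Fin N) k →ₗ[k] (MvPolynomial (Fin N) k ⧸ D.I) :=
    (Ideal.Quotient.mkₐ k D.I).toLinearMap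
  have h1 : FiniteDimensional k
      (Submodule.span k (Set.range (X : Fin N → MvPolynomial (Fin N) k))) :=
    FiniteDimensional.span_of_finite k (Set.finite_range _)
  have h3 : D.sections 1 ≤ Submodule.map π
      (Submodule.span k (Set.range (X : Fin N → MvPolynomial (Fin N) k))) := by
    rintro _ ⟨a, ha, rfl⟩
    exact ⟨a, mem_span_X D.w_pos ha.1, rfl⟩
  exact Submodule.finiteDimensional_of_le h3

/-- variables of degree one are linearly independent in `R` -/
theorem card_le_finrank (T : Finset (Fin N))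
    (hInv : ∀ i ∈ T, D.Inv 1 (X i)) : T.card ≤ Module.finrank k (D.sections 1) := by
  classical
  have hfin := D.finite_sections_one
  have hmem : ∀ c : {i // i ∈ T} → k,
      Ideal.Quotient.mk D.I (∑ i, c i • (X i.1 : MvPolynomial (Fin N) k))
        ∈ D.sections 1 := by
    intro c
    rw [map_sum]
    refine Submodule.sum_mem _ (fun i _ => ?_)
    have h1 : Ideal.Quotient.mk D.I (c i • (X i.1 : MvPolynomial (Fin N) k))
        = c i • Ideal.Quotient.mk D.I (X i.1) := map_smul (Ideal.Quotient.mkₐ k D.I) _ _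
    rw [h1]
    exact Submodule.smul_mem _ _ ⟨X i.1, hInv i.1 i.2, rfl⟩
  let F : ({i // i ∈ T} → k) →ₗ[k] D.sections 1 :=
    { toFun := fun c => ⟨Ideal.Quotient.mk D.I (∑ i, c i • (X i.1 : MvPolynomial (Fin N) k)),
        hmem c⟩
      map_add' := by
        intro c d
        apply Subtype.ext
        simp only [Pi.add_apply, add_smul, Finset.sum_add_distrib, map_add]
        rfl
      map_smul' := by
        intro r' c
        apply Subtype.ext
        simp only [Pi.smul_apply, smul_eq_mul, mul_smul, ← Finset.smul_sum, RingHom.id_apply]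
        exact map_smul (Ideal.Quotient.mkₐ k D.I) _ _ }
  have hF : Function.Injective F := by
    rw [injective_iff_map_eq_zero]
    intro c hc
    have h1 : Ideal.Quotient.mk D.I (∑ i, c i • (X i.1 : MvPolynomial (Fin N) k)) = 0 :=
      congrArg Subtype.val hc
    rw [Ideal.Quotient.eq_zero_iff_mem] at h1
    have h2 : IsWeightedHomogeneous D.w (∑ i, c i • (X i.1 : MvPolynomial (Fin N) k)) 1 := by
      rw [← mem_weightedHomogeneousSubmodule]
      refine Submodule.sum_mem _ (fun i _ => Submodule.smul_mem _ _ ?_)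
      rw [mem_weightedHomogeneousSubmodule]
      exact (hInv i.1 i.2).1
    have h3 := D.eq_zero_of_mem h2 h1
    have h4 : LinearIndependent k (fun i : {i // i ∈ T} => (X i.1 : MvPolynomial (Fin N) k)) :=
      (linearIndependent_X (Fin N) k).comp _ Subtype.val_injective
    funext i
    exact (Fintype.linearIndependent_iff.1 h4) c h3 i
  have h5 := LinearMap.finrank_le_finrank_of_injective hF
  simpa [Module.finrank_fintype_fun_eq_card, Fintype.card_coe] using h5

end Datum

open Classical in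
/-- **Section rings from toric formats.** -/
theorem result [IsAlgClosed k] [CharZero k] [Finite G] (D : Datum k G F N p) {h : ℕ} (hh : 0 < h)
    -- no variable vanishes on the cone
    (hfull : ∀ i, ∃ x ∈ D.Cone, x i ≠ 0)
    -- the ring of the `(R_{hm})^G` is a section ring
    (hS : D.SectionRing h) :
    (∃ T : Finset (Fin N), F.ν * ∑ i, (D.w i : ℤ) ≤ D.top + F.ν * ∑ i ∈ T, (D.w i : ℤ) ∧
      ∀ i ∈ T, D.w i ∣ h ∧ D.Inv h (X i ^ (h / D.w i)) ∧
        ¬ IsNilpotent (Ideal.Quotient.mk D.I (X i ^ (h / D.w i)))) ∧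
    (D.top < F.ν * ∑ i, (D.w i : ℤ) → ∃ s ∈ D.sections h, ¬ IsNilpotent s) ∧
    (h = 1 → F.ν * ∑ i, (D.w i : ℤ) - D.top ≤ F.ν * Module.finrank k (D.sections 1)) := by
  have hmain := D.not_good_le hS
  set T : Finset (Fin N) := univ.filter fun i => Good h (D.w i) (D.α i) with hT
  have hsum : F.ν * ∑ i, (D.w i : ℤ) ≤ D.top + F.ν * ∑ i ∈ T, (D.w i : ℤ) := by
    have h1 := Finset.sum_filter_add_sum_filter_not (univ : Finset (Fin N))
      (fun i => Good h (D.w i) (D.α i)) (fun i => (D.w i : ℤ))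
    rw [← hT] at h1
    rw [← h1, mul_add]
    linarith
  have hprop : ∀ i ∈ T, D.w i ∣ h ∧ D.Inv h (X i ^ (h / D.w i)) ∧
        ¬ IsNilpotent (Ideal.Quotient.mk D.I (X i ^ (h / D.w i))) := by
    intro i hi
    obtain ⟨hdvd, hα⟩ := ((Finset.mem_filter.1 hi).2).dvd (D.w_pos i)
    have hne : h / D.w i ≠ 0 := by
      intro h0
      have := Nat.div_mul_cancel hdvd
      rw [h0, zero_mul] at this
      omega
    refine ⟨hdvd, ⟨?_, ?_⟩, ?_⟩
    · have h1 := (isWeightedHomogeneous_X k D.w i).pow (h / D.w i)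
      rwa [smul_eq_mul, Nat.div_mul_cancel hdvd] at h1
    · intro g
      have h1 : D.act g (X i ^ (h / D.w i)) = X i ^ (h / D.w i) := by
        rw [map_pow]
        show (Pool.Agent.TH144.NV.act (fun i => (D.α i g : k)) (X i)) ^ _ = _
        unfold Pool.Agent.TH144.NV.act
        rw [aeval_X, mul_pow, ← C_pow, ← Units.val_pow_eq_pow_val, hα g, Units.val_one, C_1,
          one_mul]
      rw [h1]
    · rintro ⟨m, hm⟩
      obtain ⟨x, hx, hxi⟩ := hfull i
      rw [← map_pow, Ideal.Quotient.eq_zero_iff_mem] at hm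
      have := D.eval_mem hx hm
      rw [map_pow, map_pow, eval_X] at this
      exact hxi (eq_zero_of_pow_eq_zero (eq_zero_of_pow_eq_zero this))
  refine ⟨⟨T, hsum, hprop⟩, ?_, ?_⟩
  · intro hlt
    have hne : T.Nonempty := by
      rw [Finset.nonempty_iff_ne_empty]
      intro h0
      rw [h0, Finset.sum_empty] at hsum
      omega
    obtain ⟨i, hi⟩ := hne
    exact ⟨_, ⟨_, (hprop i hi).2.1, rfl⟩, (hprop i hi).2.2⟩
  · rintro rfl
    have hw1 : ∀ i ∈ T, D.w i = 1 := fun i hi => Nat.dvd_one.1 (hprop i hi).1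
    have h1 := D.card_le_finrank T (fun i hi => by
      have h2 := (hprop i hi).2.1
      rw [hw1 i hi] at h2
      simpa using h2)
    have h2 : ∑ i ∈ T, (D.w i : ℤ) = T.card := by
      rw [Finset.sum_congr rfl (fun i hi => by rw [hw1 i hi, Nat.cast_one])]
      simp
    rw [h2] at hsum
    have h3 : (T.card : ℤ) ≤ Module.finrank k (D.sections 1) := by exact_mod_cast h1
    have h4 : (F.ν : ℤ) * T.card ≤ F.ν * Module.finrank k (D.sections 1) :=
      mul_le_mul_of_nonneg_left h3 (Nat.cast_nonneg F.ν)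
    linarith

end Pool.Agent.Results.MP_954e53_ag.ToricFormats
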